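import Mathlib
import Pool.Agent.helper92.LC.MapInit
import Pool.Agent.helper92.LW.WPointRoot

/-!
# Project LI: roots attached to infinitely near points of the tangent cone.  Definitions

`f = f0 + h + ...` is a weighted Lê-Yomdin germ of `ℂ ^ 3` (any hypersurface `f0 = 0` of the weighted
projective plane, `h` does not vanish at the point `(q, 1)`).  An exceptional divisor `E` over `(q, 1)` is
the blow-up of a point `O'` infinitely near to `q`; a neighbourhood of `O'` is described by a composition
`Ψ` of the standard charts `(u, v) ↦ (u, u (v + c))` and `(u, v) ↦ (u v, v)` of blow-ups of points.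
-/

set_option autoImplicit false

namespace Pool.Agent.helper92.LI

open MvPolynomial
open Pool.Agent.helper67.IF Pool.Agent.helper92.LC Pool.Agent.helper92.LW

/-- `G` is a Stokes functional of `g`. -/
def Stokes {n : ℕ} (g : MvPolynomial (Fin n) ℂ) (G : MvPolynomial (Fin n) ℂ →ₗ[ℂ] ℂ) : Prop :=
  ∀ (i : Fin n) (φ : MvPolynomial (Fin n) ℂ), G (pderiv i φ) = G (φ * pderiv i g)

/-- The chart `(u, v) ↦ (u, u (v + c))` of the blow-up of the origin. -/
noncomputable def blA (c : ℂ) : Fin 2 → MvPolynomial (Fin 2) ℂ := ![X 0, X 0 * (X 1 + C c)]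

/-- The chart `(u, v) ↦ (u v, v)` of the blow-up of the origin. -/
noncomputable def blB : Fin 2 → MvPolynomial (Fin 2) ℂ := ![X 0 * X 1, X 1]

/-- `Near Ψ A B`: `Ψ` is a composition of charts of blow-ups of points over the origin of `ℂ ^ 2`,
`A` and `B` are the orders of its Jacobian determinant along `u = 0` and `v = 0`. -/
inductive Near : (Fin 2 → MvPolynomial (Fin 2) ℂ) → ℕ → ℕ → Prop
  | base : Near X 0 0
  | blA {Ψ : Fin 2 → MvPolynomial (Fin 2) ℂ} {A B : ℕ} (c : ℂ) (h : Near Ψ A B) :
      Near (fun i => aeval (LI.blA c) (Ψ i)) (A + B + 1) (if c = 0 then B else 0)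
  | blB {Ψ : Fin 2 → MvPolynomial (Fin 2) ℂ} {A B : ℕ} (h : Near Ψ A B) :
      Near (fun i => aeval LI.blB (Ψ i)) A (A + B + 1)

end Pool.Agent.helper92.LI
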