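import Mathlib
import Pool.Agent.helper92.LI.Defs

/-!
# Project LI, module InvChart: the strict transform in the charts of the blow-up

Independent of the other modules.
-/

set_option autoImplicit false

namespace Pool.Agent.helper92.LI

open MvPolynomial
open Pool.Agent.helper67.IF Pool.Agent.helper92.LC

/-- The restriction of `s` to `u = 0` has order `c` at `v = 0`. -/
def OnU (s : MvPolynomial (Fin 2) ℂ) (c : ℕ) : Prop :=
  coeff (Finsupp.single 1 c) s ≠ 0 ∧ ∀ j < c, coeff (Finsupp.single 1 j) s = 0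

/-- The restriction of `s` to `v = 0` has order `c` at `u = 0`. -/
def OnV (s : MvPolynomial (Fin 2) ℂ) (c : ℕ) : Prop :=
  coeff (Finsupp.single 0 c) s ≠ 0 ∧ ∀ j < c, coeff (Finsupp.single 0 j) s = 0

/-- Restriction to `u = 0`. -/
private noncomputable def InvChart_r0 : MvPolynomial (Fin 2) ℂ →ₐ[ℂ] Polynomial ℂ :=
  aeval ![0, Polynomial.X]

/-- Restriction to `v = 0`. -/
private noncomputable def InvChart_r1 : MvPolynomial (Fin 2) ℂ →ₐ[ℂ] Polynomial ℂ :=
  aeval ![Polynomial.X, 0]

private lemma InvChart_coeff_r0 (s : MvPolynomial (Fin 2) ℂ) (j : ℕ) :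
    (InvChart_r0 s).coeff j = coeff (Finsupp.single 1 j) s := by
  classical
  unfold InvChart_r0
  induction s using MvPolynomial.induction_on' with
  | monomial m a =>
    rw [aeval_monomial, Finsupp.prod_fintype _ _ (by intro i; simp), Fin.prod_univ_two,
      coeff_monomial]
    simp only [Matrix.cons_val_zero, Matrix.cons_val_one]
    by_cases h0 : m 0 = 0
    · rw [h0, pow_zero, one_mul, ← Polynomial.C_eq_algebraMap, Polynomial.coeff_C_mul,
        Polynomial.coeff_X_pow]
      by_cases h1 : j = m 1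
      · have : m = Finsupp.single 1 j := by
          ext i
          fin_cases i
          · simpa using h0
          · simp [h1]
        rw [if_pos h1, if_pos this, mul_one]
      · have : m ≠ Finsupp.single 1 j := by
          intro h
          apply h1
          rw [h]
          simp
        rw [if_neg h1, if_neg this, mul_zero]
    · rw [zero_pow h0, zero_mul, mul_zero, Polynomial.coeff_zero]
      have : m ≠ Finsupp.single 1 j := by
        intro h
        apply h0
        rw [h]
        simp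
      rw [if_neg this]
  | add p q hp hq => rw [map_add, Polynomial.coeff_add, hp, hq, coeff_add]

private lemma InvChart_coeff_r1 (s : MvPolynomial (Fin 2) ℂ) (j : ℕ) :
    (InvChart_r1 s).coeff j = coeff (Finsupp.single 0 j) s := by
  classical
  unfold InvChart_r1
  induction s using MvPolynomial.induction_on' with
  | monomial m a =>
    rw [aeval_monomial, Finsupp.prod_fintype _ _ (by intro i; simp), Fin.prod_univ_two,
      coeff_monomial]
    simp only [Matrix.cons_val_zero, Matrix.cons_val_one]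
    by_cases h0 : m 1 = 0
    · rw [h0, pow_zero, mul_one, ← Polynomial.C_eq_algebraMap, Polynomial.coeff_C_mul,
        Polynomial.coeff_X_pow]
      by_cases h1 : j = m 0
      · have : m = Finsupp.single 0 j := by
          ext i
          fin_cases i
          · simp [h1]
          · simpa using h0
        rw [if_pos h1, if_pos this, mul_one]
      · have : m ≠ Finsupp.single 0 j := by
          intro h
          apply h1
          rw [h]
          simp
        rw [if_neg h1, if_neg this, mul_zero]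
    · rw [zero_pow h0, mul_zero, mul_zero, Polynomial.coeff_zero]
      have : m ≠ Finsupp.single 0 j := by
        intro h
        apply h0
        rw [h]
        simp
      rw [if_neg this]
  | add p q hp hq => rw [map_add, Polynomial.coeff_add, hp, hq, coeff_add]

private lemma InvChart_core {s : MvPolynomial (Fin 2) ℂ} {M : ℕ}
    (hM : ∀ m, coeff m s ≠ 0 → M ≤ m 0 + m 1)
    (hM' : ∃ m, coeff m s ≠ 0 ∧ m 0 + m 1 = M) (c : ℂ) :
    ∃ (s' : MvPolynomial (Fin 2) ℂ) (c1 : ℕ), aeval (blA c) s = X 0 ^ M * s' ∧ s' ≠ 0 ∧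
      OnU s' c1 ∧ c1 ≤ M ∧ (c = 0 → ∀ c2, OnV s c2 → M ≤ c2 ∧ OnV s' (c2 - M)) := by
  classical
  set s' : MvPolynomial (Fin 2) ℂ := ∑ m ∈ s.support,
    C (coeff m s) * (X 0 ^ (m 0 + m 1 - M) * (X 1 + C c) ^ (m 1)) with hs'
  have hE : aeval (blA c) s = X 0 ^ M * s' := by
    rw [aeval_def, eval₂_eq', hs', Finset.mul_sum]
    refine Finset.sum_congr rfl fun m hm => ?_
    have h := hM m (mem_support_iff.1 hm)
    rw [Fin.prod_univ_two]
    unfold LI.blA
    simp only [Matrix.cons_val_zero, Matrix.cons_val_one, algebraMap_eq]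
    have e : (X 0 : MvPolynomial (Fin 2) ℂ) ^ M * (C (coeff m s) *
        (X 0 ^ (m 0 + m 1 - M) * (X 1 + C c) ^ (m 1))) =
        C (coeff m s) * (X 0 ^ (M + (m 0 + m 1 - M)) * (X 1 + C c) ^ (m 1)) := by
      rw [pow_add]; ring
    rw [e, Nat.add_sub_cancel' h, mul_pow, pow_add]
    ring
  -- the restriction to u = 0
  set P : Polynomial ℂ := ∑ m ∈ s.support with m 0 + m 1 = M,
    Polynomial.C (coeff m s) * Polynomial.X ^ (m 1) with hP
  have hr : InvChart_r0 s' = P.comp (Polynomial.X + Polynomial.C c) := by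
    rw [hs', hP, map_sum, Polynomial.sum_comp, Finset.sum_filter]
    refine Finset.sum_congr rfl fun m hm => ?_
    have h := hM m (mem_support_iff.1 hm)
    unfold InvChart_r0
    rw [map_mul, map_mul, map_pow, map_pow, map_add, aeval_X, aeval_X, aeval_C, aeval_C]
    simp only [Matrix.cons_val_zero, Matrix.cons_val_one]
    by_cases h1 : m 0 + m 1 = M
    · rw [if_pos h1, h1, Nat.sub_self, pow_zero, one_mul, Polynomial.mul_comp, Polynomial.C_comp,
        Polynomial.X_pow_comp]
      rfl
    · rw [if_neg h1, zero_pow (by omega), zero_mul, mul_zero]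
  have hP0 : P ≠ 0 := by
    obtain ⟨m, hm, hm1⟩ := hM'
    intro h
    have h2 : P.coeff (m 1) = coeff m s := by
      rw [hP, Polynomial.finsetSum_coeff, Finset.sum_eq_single m]
      · rw [Polynomial.coeff_C_mul, Polynomial.coeff_X_pow, if_pos rfl, mul_one]
      · intro q hq hqm
        rw [Finset.mem_filter] at hq
        rw [Polynomial.coeff_C_mul, Polynomial.coeff_X_pow, if_neg, mul_zero]
        intro h3
        apply hqm
        ext i
        fin_cases i
        · have := hq.2
          simp only [Fin.zero_eta]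
          omega
        · exact h3.symm
      · intro h3
        exfalso
        apply h3
        rw [Finset.mem_filter]
        exact ⟨mem_support_iff.2 hm, hm1⟩
    rw [h, Polynomial.coeff_zero] at h2
    exact hm h2.symm
  have hPd : P.natDegree ≤ M := by
    rw [hP]
    refine Polynomial.natDegree_sum_le_of_forall_le _ _ fun m hm => ?_
    rw [Finset.mem_filter] at hm
    refine (Polynomial.natDegree_C_mul_X_pow_le _ _).trans ?_
    omega
  set Q : Polynomial ℂ := P.comp (Polynomial.X + Polynomial.C c) with hQ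
  have hQt : Q = Polynomial.taylor c P := rfl
  have hQ0 : Q ≠ 0 := by
    rw [hQt]
    intro h
    apply hP0
    apply Polynomial.taylor_injective c
    rw [h, map_zero]
  have hQd : Q.natDegree ≤ M := by
    rw [hQt, Polynomial.natDegree_taylor]
    exact hPd
  refine ⟨s', Q.natTrailingDegree, hE, ?_, ⟨?_, ?_⟩, ?_, ?_⟩
  · intro h
    apply hQ0
    rw [← hr, h, map_zero]
  · rw [← InvChart_coeff_r0, hr]
    exact fun h => hQ0 (Polynomial.trailingCoeff_eq_zero.1 h)
  · intro j hj
    rw [← InvChart_coeff_r0, hr]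
    exact Polynomial.coeff_eq_zero_of_lt_natTrailingDegree hj
  · exact (Polynomial.natTrailingDegree_le_natDegree Q).trans hQd
  · intro hc c2 h2
    subst hc
    have hX : InvChart_r1 s = Polynomial.X ^ M * InvChart_r1 s' := by
      have h3 : InvChart_r1 (aeval (blA 0) s) = InvChart_r1 s := by
        unfold InvChart_r1
        rw [← AlgHom.comp_apply, comp_aeval]
        congr 2
        funext i
        unfold LI.blA
        fin_cases i <;> simp
      rw [← h3, hE, map_mul, map_pow]
      congr 1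
      unfold InvChart_r1
      rw [aeval_X]
      simp
    have hlt : ∀ j < M, coeff (Finsupp.single 0 j) s = 0 := by
      intro j hj
      rw [← InvChart_coeff_r1, hX, Polynomial.coeff_X_pow_mul', if_neg (by omega)]
    have hge : ∀ j, coeff (Finsupp.single 0 j) s' = coeff (Finsupp.single 0 (j + M)) s := by
      intro j
      rw [← InvChart_coeff_r1, ← InvChart_coeff_r1, hX, Polynomial.coeff_X_pow_mul]
    have hMc : M ≤ c2 := by
      by_contra h
      exact h2.1 (hlt c2 (by omega))
    refine ⟨hMc, ?_, ?_⟩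
    · rw [hge, Nat.sub_add_cancel hMc]
      exact h2.1
    · intro j hj
      rw [hge]
      exact h2.2 _ (by omega)

private lemma InvChart_weight (m : Fin 2 →₀ ℕ) :
    Finsupp.weight (fun _ => 1) m = m 0 + m 1 := by
  rw [Finsupp.weight_apply, Finsupp.sum_fintype _ _ (by intro i; simp), Fin.sum_univ_two]
  simp

private lemma InvChart_hyp {s : MvPolynomial (Fin 2) ℂ} {M : ℕ} (hM : Ord M s)
    (hM' : homogeneousComponent M s ≠ 0) :
    (∀ m, coeff m s ≠ 0 → M ≤ m 0 + m 1) ∧ ∃ m, coeff m s ≠ 0 ∧ m 0 + m 1 = M := by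
  constructor
  · intro m hm
    have := hM m (mem_support_iff.2 hm)
    rwa [InvChart_weight] at this
  · obtain ⟨m, hm⟩ := MvPolynomial.ne_zero_iff.1 hM'
    rw [coeff_homogeneousComponent] at hm
    by_cases h : Finsupp.degree m = M
    · rw [if_pos h] at hm
      refine ⟨m, hm, ?_⟩
      rw [← h, Finsupp.degree_eq_sum, Fin.sum_univ_two]
    · rw [if_neg h] at hm
      exact absurd rfl hm

/-- The chart `(u, v) ↦ (u, u (v + c))`.  `M` is the order of `s`.
PROOF.  Let `s_M = homogeneousComponent M s`.  Then `s(u, u (v + c)) = u^M s'(u, v)`: on monomials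
`u^i (u (v + c))^j = u^(i+j) (v + c)^j`, `i + j ≥ M`.  `s' ≠ 0` because substitution is injective (or
because `s'(0, v) = s_M(1, v + c) ≠ 0`, a polynomial in `v` of degree `≤ M`; it is nonzero because `s_M ≠ 0` is
homogeneous).  So `s'(0, v)` has an order `c1' ≤ M` at `v = 0`, i.e. `OnU s' c1'`; it is convenient to treat
`c = 0` first: `coeff (i, j) s' = coeff (i + M - j, j) s` (`0` if `j > i + M`), and then to substitute
`v ↦ v + c`, which keeps the nonzero polynomial `s'(0, v)` of degree `≤ M` a nonzero polynomial of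
degree `≤ M`.  If `c = 0` and `OnV s c2` then `M ≤ c2` and `OnV s' (c2 - M)`. -/
theorem chartA {s : MvPolynomial (Fin 2) ℂ} (hs : s ≠ 0) {M : ℕ} (hM : Ord M s)
    (hM' : homogeneousComponent M s ≠ 0) (c : ℂ) :
    ∃ (s' : MvPolynomial (Fin 2) ℂ) (c1 : ℕ), aeval (blA c) s = X 0 ^ M * s' ∧ s' ≠ 0 ∧
      OnU s' c1 ∧ c1 ≤ M ∧ (c = 0 → ∀ c2, OnV s c2 → M ≤ c2 ∧ OnV s' (c2 - M)) := by
  have _ := hs
  obtain ⟨h1, h2⟩ := InvChart_hyp hM hM'
  exact InvChart_core h1 h2 c

private lemma InvChart_coeff_swap (s : MvPolynomial (Fin 2) ℂ) (m : Fin 2 →₀ ℕ) :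
    coeff m (rename (Equiv.swap (0 : Fin 2) 1) s) =
      coeff (m.mapDomain (Equiv.swap (0 : Fin 2) 1)) s := by
  have hm : m = (m.mapDomain (Equiv.swap (0 : Fin 2) 1)).mapDomain (Equiv.swap (0 : Fin 2) 1) := by
    rw [← Finsupp.mapDomain_comp]
    have : (Equiv.swap (0 : Fin 2) 1 : Fin 2 → Fin 2) ∘ (Equiv.swap (0 : Fin 2) 1) = id := by
      funext i
      simp
    rw [this, Finsupp.mapDomain_id]
  conv_lhs => rw [hm]
  rw [coeff_rename_mapDomain _ (Equiv.swap (0 : Fin 2) 1).injective]

private lemma InvChart_OnV_swap (s : MvPolynomial (Fin 2) ℂ) (c : ℕ) :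
    OnV (rename (Equiv.swap (0 : Fin 2) 1) s) c ↔ OnU s c := by
  unfold OnV OnU
  simp only [InvChart_coeff_swap, Finsupp.mapDomain_single, Equiv.swap_apply_left]

private lemma InvChart_OnU_swap (s : MvPolynomial (Fin 2) ℂ) (c : ℕ) :
    OnU (rename (Equiv.swap (0 : Fin 2) 1) s) c ↔ OnV s c := by
  unfold OnV OnU
  simp only [InvChart_coeff_swap, Finsupp.mapDomain_single, Equiv.swap_apply_right]

/-- The chart `(u, v) ↦ (u v, v)`.
PROOF.  As `chartA` with `c = 0`, the roles of the variables exchanged: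
`s(u v, v) = v^M s'(u, v)`, `coeff (i, j) s' = coeff (i, j + M - i) s`. -/
theorem chartB {s : MvPolynomial (Fin 2) ℂ} (hs : s ≠ 0) {M : ℕ} (hM : Ord M s)
    (hM' : homogeneousComponent M s ≠ 0) :
    ∃ (s' : MvPolynomial (Fin 2) ℂ) (c2 : ℕ), aeval blB s = X 1 ^ M * s' ∧ s' ≠ 0 ∧
      OnV s' c2 ∧ c2 ≤ M ∧ (∀ c1, OnU s c1 → M ≤ c1 ∧ OnU s' (c1 - M)) := by
  have _ := hs
  obtain ⟨h1, h2⟩ := InvChart_hyp hM hM'
  set σ := (Equiv.swap (0 : Fin 2) 1) with hσ
  have hm0 : ∀ m : Fin 2 →₀ ℕ, (m.mapDomain σ) 0 = m 1 := by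
    intro m
    have := Finsupp.mapDomain_apply σ.injective m 1
    rwa [hσ, Equiv.swap_apply_right] at this
  have hm1 : ∀ m : Fin 2 →₀ ℕ, (m.mapDomain σ) 1 = m 0 := by
    intro m
    have := Finsupp.mapDomain_apply σ.injective m 0
    rwa [hσ, Equiv.swap_apply_left] at this
  have h1' : ∀ m, coeff m (rename σ s) ≠ 0 → M ≤ m 0 + m 1 := by
    intro m hm
    rw [hσ, InvChart_coeff_swap, ← hσ] at hm
    have := h1 _ hm
    rw [hm0, hm1] at this
    omega
  have h2' : ∃ m, coeff m (rename σ s) ≠ 0 ∧ m 0 + m 1 = M := by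
    obtain ⟨m, hm, hmM⟩ := h2
    refine ⟨m.mapDomain σ, ?_, ?_⟩
    · rw [coeff_rename_mapDomain _ σ.injective]
      exact hm
    · rw [hm0, hm1]
      omega
  obtain ⟨t, c1, hE, ht, hU, hc1, hV⟩ := InvChart_core h1' h2' 0
  refine ⟨rename σ t, c1, ?_, ?_, ?_, hc1, ?_⟩
  · have e1 : aeval blB s = rename σ (aeval (blA 0) (rename σ s)) := by
      rw [aeval_rename, ← AlgHom.comp_apply, comp_aeval]
      congr 2
      funext i
      unfold LI.blA LI.blB
      fin_cases i <;> simp [hσ, mul_comm]
    rw [e1, hE, map_mul, map_pow, rename_X, hσ, Equiv.swap_apply_left]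
  · intro h
    apply ht
    apply rename_injective σ σ.injective
    rw [h, map_zero]
  · rw [hσ, InvChart_OnV_swap]
    exact hU
  · intro c2 h
    have h3 := hV rfl c2 (by rw [hσ, InvChart_OnV_swap]; exact h)
    refine ⟨h3.1, ?_⟩
    rw [hσ, InvChart_OnU_swap]
    exact h3.2

end Pool.Agent.helper92.LI
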