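import Mathlib
import Pool.Agent.helper92.LI.Defs
import Pool.Agent.helper92.LC.PiolaId

/-!
# Project LI, module Jac: Jacobian determinants of the charts

Independent of the other modules.
-/

set_option autoImplicit false

namespace Pool.Agent.helper92.LI

open MvPolynomial
open Pool.Agent.helper67.IF Pool.Agent.helper92.LC

/-- Chain rule for the Jacobian determinant of `Ψ ∘ β` in two variables.
PROOF.  `pderiv_aeval` (module `LC.PiolaId`): `∂_j (Ψ_i(β)) = ∑_l (∂_l Ψ_i)(β) ∂_j β_l`, so the Jacobian matrix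
is a product; `Matrix.det_fin_two` and `ring` is the quickest way. -/
theorem det_comp (Ψ β : Fin 2 → MvPolynomial (Fin 2) ℂ) :
    (jacM fun i => aeval β (Ψ i)).det = aeval β (jacM Ψ).det * (jacM β).det := by
  have h1 : (jacM fun i => aeval β (Ψ i)) = (aeval β).mapMatrix (jacM Ψ) * jacM β := by
    refine Matrix.ext fun i j => ?_
    rw [Matrix.mul_apply]
    simp only [jacM, Matrix.of_apply, AlgHom.mapMatrix_apply, Matrix.map_apply]
    rw [pderiv_aeval]
  rw [h1, Matrix.det_mul, ← AlgHom.map_det]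

lemma Jac_ord_one {n : ℕ} {φ : MvPolynomial (Fin n) ℂ} (h : eval 0 φ = 0) : Ord 1 φ := by
  classical
  intro m hm
  by_contra h1
  have h2 : Finsupp.weight (fun _ : Fin n => 1) m = 0 := by omega
  rw [Finsupp.weight_apply, Finsupp.sum, Finset.sum_eq_zero_iff] at h2
  have h3 : m = 0 := by
    ext i
    by_cases hi : i ∈ m.support
    · simpa using h2 i hi
    · simpa using hi
  rw [h3, mem_support_iff] at hm
  apply hm
  rw [eval_zero] at h
  exact h

lemma Jac_eval (β : Fin 2 → MvPolynomial (Fin 2) ℂ) (h : ∀ i, eval 0 (β i) = 0)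
    (φ : MvPolynomial (Fin 2) ℂ) : eval 0 (aeval β φ) = eval 0 φ := by
  induction φ using MvPolynomial.induction_on with
  | C a => simp [algebraMap_eq]
  | add p q hp hq => simp only [map_add, hp, hq]
  | mul_X p i hp =>
    rw [map_mul, map_mul, hp, map_mul, eval_X, aeval_X, h i]
    rfl

lemma Jac_coeff (β : Fin 2 → MvPolynomial (Fin 2) ℂ) (h : ∀ i, eval 0 (β i) = 0)
    (φ : MvPolynomial (Fin 2) ℂ) : coeff 0 (aeval β φ) = coeff 0 φ := by
  have h1 := Jac_eval β h φ
  rw [eval_zero] at h1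
  exact h1

lemma Jac_blA0 (c : ℂ) (i : Fin 2) : eval 0 (LI.blA c i) = 0 := by
  fin_cases i <;> simp [LI.blA]

lemma Jac_blB0 (i : Fin 2) : eval 0 (LI.blB i) = 0 := by
  fin_cases i <;> simp [LI.blB]

lemma Jac_detX : (jacM (X : Fin 2 → MvPolynomial (Fin 2) ℂ)).det = 1 := by
  rw [Matrix.det_fin_two]
  simp only [jacM, Matrix.of_apply]
  rw [pderiv_X_self, pderiv_X_self, pderiv_X_of_ne (by decide), zero_mul, sub_zero, one_mul]

lemma Jac_detA (c : ℂ) : (jacM (LI.blA c)).det = X 0 := by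
  rw [Matrix.det_fin_two]
  simp only [jacM, Matrix.of_apply]
  have e0 : LI.blA c 0 = X 0 := rfl
  have e1 : LI.blA c 1 = X 0 * (X 1 + C c) := rfl
  rw [e0, e1]
  rw [pderiv_X_self, one_mul, pderiv_X_of_ne (i := (1 : Fin 2)) (j := 0) (by decide), zero_mul,
    sub_zero, Derivation.leibniz, map_add, pderiv_X_self, pderiv_C, pderiv_X_of_ne (by decide),
    add_zero, smul_zero, add_zero, smul_eq_mul, mul_one]

lemma Jac_detB : (jacM LI.blB).det = X 1 := by
  rw [Matrix.det_fin_two]
  simp only [jacM, Matrix.of_apply]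
  have e0 : LI.blB 0 = X 0 * X 1 := rfl
  have e1 : LI.blB 1 = X 1 := rfl
  rw [e0, e1]
  rw [pderiv_X_self, mul_one, pderiv_X_of_ne (i := (0 : Fin 2)) (j := 1) (by decide), mul_zero,
    sub_zero, Derivation.leibniz, pderiv_X_self, pderiv_X_of_ne (by decide),
    smul_zero, zero_add, smul_eq_mul, mul_one]

/-- **The Jacobian of a composition of charts.**
PROOF.  Induction on `h`.  `base`: `jacM X = 1`.  `blA c`: by `det_comp` and `(jacM (blA c)).det = X 0` the
determinant is `(X 0)^A (X 0 (X 1 + c))^B w(blA c) X 0 = (X 0)^(A+B+1) (X 1 + c)^B w(blA c)`; if `c = 0` this is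
`(X 0)^(A+B+1) (X 1)^B w'`, `w' = w(blA c)`; if `c ≠ 0` put `w' = (X 1 + c)^B w(blA c)`, with constant term
`c^B w(0) ≠ 0` (`blA c` maps `0` to `0`, so `coeff 0 (aeval (blA c) w) = coeff 0 w`; `constantCoeff`).  `blB`:
`(jacM blB).det = X 1`.  `Ord 1 (Ψ i)` means that the constant term of `Ψ i` is `0`. -/
theorem near_jac {Ψ : Fin 2 → MvPolynomial (Fin 2) ℂ} {A B : ℕ} (h : Near Ψ A B) :
    (∀ i, Ord 1 (Ψ i)) ∧
      ∃ w : MvPolynomial (Fin 2) ℂ, (jacM Ψ).det = X 0 ^ A * X 1 ^ B * w ∧ coeff 0 w ≠ 0 := by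
  induction h with
  | base =>
    refine ⟨fun i => Jac_ord_one (by simp), 1, ?_, ?_⟩
    · rw [Jac_detX]; simp
    · rw [coeff_zero_one]; exact one_ne_zero
  | @blA Ψ A B c h ih =>
    obtain ⟨hO, w, hw, hw0⟩ := ih
    refine ⟨fun i => Jac_ord_one ?_, ?_⟩
    · rw [Jac_eval _ (Jac_blA0 c)]
      exact PiolaId_eval0 (hO i)
    · have hd : (jacM fun i => aeval (LI.blA c) (Ψ i)).det =
          X 0 ^ A * (X 0 * (X 1 + C c)) ^ B * aeval (LI.blA c) w * X 0 := by
        rw [det_comp, hw, Jac_detA, map_mul, map_mul, map_pow, map_pow, aeval_X, aeval_X]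
        rfl
      rw [hd]
      by_cases hc : c = 0
      · rw [if_pos hc]
        refine ⟨aeval (LI.blA c) w, ?_, ?_⟩
        · rw [hc, C_0, add_zero, mul_pow]
          ring
        · rw [Jac_coeff _ (Jac_blA0 c)]
          exact hw0
      · rw [if_neg hc]
        refine ⟨(X 1 + C c) ^ B * aeval (LI.blA c) w, ?_, ?_⟩
        · rw [mul_pow]
          ring
        · have h1 : coeff 0 ((X 1 + C c) ^ B * aeval (LI.blA c) w) =
              constantCoeff ((X 1 + C c) ^ B * aeval (LI.blA c) w) := rfl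
          have h2 : constantCoeff (aeval (LI.blA c) w) = coeff 0 w := Jac_coeff _ (Jac_blA0 c) w
          rw [h1, map_mul, map_pow, map_add, constantCoeff_X, constantCoeff_C, zero_add, h2]
          exact mul_ne_zero (pow_ne_zero _ hc) hw0
  | @blB Ψ A B h ih =>
    obtain ⟨hO, w, hw, hw0⟩ := ih
    refine ⟨fun i => Jac_ord_one ?_, aeval LI.blB w, ?_, ?_⟩
    · rw [Jac_eval _ Jac_blB0]
      exact PiolaId_eval0 (hO i)
    · have hd : (jacM fun i => aeval LI.blB (Ψ i)).det =
          (X 0 * X 1) ^ A * X 1 ^ B * aeval LI.blB w * X 1 := by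
        rw [det_comp, hw, Jac_detB, map_mul, map_mul, map_pow, map_pow, aeval_X, aeval_X]
        rfl
      rw [hd, mul_pow]
      ring
    · rw [Jac_coeff _ Jac_blB0]
      exact hw0

end Pool.Agent.helper92.LI
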