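import Mathlib
import Pool.Agent.helper92.LI.Defs
import Pool.Agent.helper92.LI.Jac
import Pool.Agent.helper92.LI.InvChart
import Pool.Agent.helper92.LC.LocalMem

/-!
# Project LI, module Inv: the numerical inequalities at an infinitely near point

`Jac` is used only for `Ord 1 (Ψ i)`, `InvChart` for `chartA`, `chartB` (both through their stubs).
-/

set_option autoImplicit false

namespace Pool.Agent.helper92.LI

open MvPolynomial
open Pool.Agent.helper67.IF Pool.Agent.helper92.LC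

/-- The invariant: `g ∘ Ψ = u ^ N1 v ^ N2 s` and numerical inequalities. -/
def Inv (G : MvPolynomial (Fin 2) ℂ) (A B : ℕ) : Prop :=
  ∃ (N1 N2 c1 c2 : ℕ) (s : MvPolynomial (Fin 2) ℂ), G = X 0 ^ N1 * X 1 ^ N2 * s ∧ s ≠ 0 ∧
    (A = 0 → N1 = 0) ∧ (B = 0 → N2 = 0) ∧
    (1 ≤ A → OnU s c1 ∧ A * c1 ≤ N1 ∧ A * (N2 + c1) < (B + 2) * N1) ∧
    (1 ≤ B → OnV s c2 ∧ B * c2 ≤ N2 ∧ B * (N1 + c2) < (A + 2) * N2)

lemma Inv_degree (m : Fin 2 →₀ ℕ) : Finsupp.weight (fun _ : Fin 2 => 1) m = m.degree := by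
  rw [Finsupp.degree_eq_weight_one]

lemma Inv_order {s : MvPolynomial (Fin 2) ℂ} (hs : s ≠ 0) :
    ∃ M, Ord M s ∧ homogeneousComponent M s ≠ 0 := by
  classical
  have hex : ∃ M, homogeneousComponent M s ≠ 0 := by
    by_contra hcon
    push Not at hcon
    apply hs
    rw [← sum_homogeneousComponent s]
    exact Finset.sum_eq_zero fun i _ => hcon i
  refine ⟨Nat.find hex, ?_, Nat.find_spec hex⟩
  intro m hm
  rw [Inv_degree]
  by_contra hlt
  push Not at hlt
  have h1 := Nat.find_min hex hlt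
  push Not at h1
  have h2 : coeff m (homogeneousComponent m.degree s) = 0 := by rw [h1]; simp
  rw [coeff_homogeneousComponent, if_pos rfl] at h2
  exact (mem_support_iff.1 hm) h2

lemma Inv_le_of_coeff {s : MvPolynomial (Fin 2) ℂ} {M c : ℕ} {i : Fin 2} (hM : Ord M s)
    (h : coeff (Finsupp.single i c) s ≠ 0) : M ≤ c := by
  have h1 := hM _ (mem_support_iff.2 h)
  rw [Inv_degree, Finsupp.degree_single] at h1
  exact h1

lemma Inv_onU_mul {p q : MvPolynomial (Fin 2) ℂ} {c : ℕ} (hp : coeff 0 p ≠ 0) (hq : OnU q c) :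
    OnU (p * q) c := by
  classical
  have key : ∀ j ≤ c, coeff (Finsupp.single (1 : Fin 2) j) (p * q) =
      if j = c then coeff 0 p * coeff (Finsupp.single 1 c) q else 0 := by
    intro j hj
    rw [coeff_mul, Finsupp.antidiagonal_single, Finset.sum_map]
    simp only [Function.Embedding.prodMap, Function.Embedding.coeFn_mk, Prod.map]
    split_ifs with hjc
    · subst hjc
      rw [Finset.sum_eq_single (0, j)]
      · simp
      · rintro ⟨a, b⟩ hab hne
        rw [Finset.HasAntidiagonal.mem_antidiagonal] at hab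
        simp only at hab
        have hb : b < j := by
          rcases Nat.lt_or_ge b j with h | h
          · exact h
          · exfalso
            apply hne
            have h1 : b = j := by omega
            have h2 : a = 0 := by omega
            rw [h1, h2]
        have := hq.2 b hb
        simp only [this, mul_zero]
      · intro h
        exact absurd (Finset.HasAntidiagonal.mem_antidiagonal.2 (by simp)) h
    · refine Finset.sum_eq_zero ?_
      rintro ⟨a, b⟩ hab
      rw [Finset.HasAntidiagonal.mem_antidiagonal] at hab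
      simp only at hab
      have hb : b < c := by omega
      have := hq.2 b hb
      simp only [this, mul_zero]
  refine ⟨?_, ?_⟩
  · rw [key c le_rfl, if_pos rfl]
    exact mul_ne_zero hp hq.1
  · intro j hj
    rw [key j hj.le, if_neg hj.ne]

lemma Inv_base {g : MvPolynomial (Fin 2) ℂ} (hg0 : g ≠ 0) : Inv g 0 0 := by
  refine ⟨0, 0, 0, 0, g, by simp, hg0, fun _ => rfl, fun _ => rfl, ?_, ?_⟩
  · intro h; omega
  · intro h; omega

lemma Inv_pos {G s : MvPolynomial (Fin 2) ℂ} (hG : coeff 0 G = 0) {N1 N2 M : ℕ}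
    (h : G = X 0 ^ N1 * X 1 ^ N2 * s) (hM : homogeneousComponent M s ≠ 0) : 1 ≤ N1 + N2 + M := by
  by_contra hlt
  have h1 : N1 = 0 := by omega
  have h2 : N2 = 0 := by omega
  have h3 : M = 0 := by omega
  subst h1 h2 h3
  simp only [pow_zero, one_mul] at h
  apply hM
  rw [homogeneousComponent_zero, ← h, hG, map_zero]

lemma Inv_stepA {G : MvPolynomial (Fin 2) ℂ} {A B : ℕ} (hG : coeff 0 G = 0) (hI : Inv G A B)
    (c : ℂ) : Inv (aeval (blA c) G) (A + B + 1) (if c = 0 then B else 0) := by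
  obtain ⟨N1, N2, c1, c2, s, hGs, hs, hA0, hB0, hA, hB⟩ := hI
  obtain ⟨M, hM, hM'⟩ := Inv_order hs
  have hpos := Inv_pos hG hGs hM'
  obtain ⟨s', c1', hs', hs'0, hOn, hc1, hV⟩ := chartA hs hM hM' c
  have hAM : A * M ≤ N1 := by
    rcases Nat.eq_zero_or_pos A with h | h
    · subst h; simp
    · obtain ⟨h1, h2, -⟩ := hA h
      exact (Nat.mul_le_mul_left _ (Inv_le_of_coeff hM h1.1)).trans h2
  have hBM : B * M ≤ N2 := by
    rcases Nat.eq_zero_or_pos B with h | h
    · subst h; simp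
    · obtain ⟨h1, h2, -⟩ := hB h
      exact (Nat.mul_le_mul_left _ (Inv_le_of_coeff hM h1.1)).trans h2
  have himg : aeval (blA c) G = X 0 ^ (N1 + N2 + M) * (X 1 + C c) ^ N2 * s' := by
    rw [hGs, map_mul, map_mul, map_pow, map_pow, aeval_X, aeval_X, hs']
    simp only [blA, Matrix.cons_val_zero, Matrix.cons_val_one]
    rw [mul_pow]
    ring
  have hsum : (A + B + 1) * M ≤ N1 + N2 + M := by
    have : (A + B + 1) * M = A * M + B * M + M := by ring
    omega
  have hc1' : (A + B + 1) * c1' ≤ N1 + N2 + M :=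
    (Nat.mul_le_mul_left _ hc1).trans hsum
  by_cases hc : c = 0
  · rw [if_pos hc]
    obtain hV := hV hc
    refine ⟨N1 + N2 + M, N2, c1', c2 - M, s', ?_, hs'0, ?_, hB0, ?_, ?_⟩
    · rw [himg, hc, map_zero, add_zero]
    · intro h; omega
    · intro _
      refine ⟨hOn, hc1', ?_⟩
      have h1 : (A + B + 1) * (N2 + c1') ≤ (A + B + 1) * (N2 + M) :=
        Nat.mul_le_mul_left _ (by omega)
      refine lt_of_le_of_lt h1 ?_
      rcases Nat.eq_zero_or_pos A with h | h
      · subst h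
        have : (0 + B + 1) * (N2 + M) = (B + 1) * N2 + (B + 1) * M := by ring
        rw [this]
        have h2 : (B + 2) * (N1 + N2 + M) = (B + 2) * N1 + (B + 1) * N2 + N2 + (B + 1) * M + M := by
          ring
        rw [h2]
        have h3 : N1 ≤ (B + 2) * N1 := Nat.le_mul_of_pos_left _ (by omega)
        omega
      · obtain ⟨h1, h2, h3⟩ := hA h
        have h4 := Inv_le_of_coeff hM h1.1
        have h5 : (A - 1) * (N2 + M) ≤ A * (N2 + c1) :=
          Nat.mul_le_mul (by omega) (by omega)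
        obtain ⟨A', rfl⟩ : ∃ A', A = A' + 1 := ⟨A - 1, by omega⟩
        have h6 : A' + 1 - 1 = A' := by omega
        rw [h6] at h5
        have h7 : (A' + 1 + B + 1) * (N2 + M) = A' * (N2 + M) + (B + 2) * (N2 + M) := by ring
        have h8 : (B + 2) * (N1 + N2 + M) = (B + 2) * N1 + (B + 2) * (N2 + M) := by ring
        rw [h7, h8]
        omega
    · intro hBpos
      obtain ⟨h1, h2, h3⟩ := hB hBpos
      obtain ⟨h4, h5⟩ := hV c2 h1
      refine ⟨h5, (Nat.mul_le_mul_left _ (Nat.sub_le _ _)).trans h2, ?_⟩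
      have h6 : N1 + N2 + M + (c2 - M) = N1 + c2 + N2 := by omega
      rw [h6]
      have h7 : B * (N1 + c2 + N2) = B * (N1 + c2) + B * N2 := by ring
      have h8 : (A + B + 1 + 2) * N2 = (A + 2) * N2 + B * N2 + N2 := by ring
      rw [h7, h8]
      omega
  · rw [if_neg hc]
    refine ⟨N1 + N2 + M, 0, c1', 0, (X 1 + C c) ^ N2 * s', ?_, ?_, ?_, fun _ => rfl, ?_, ?_⟩
    · rw [himg, pow_zero]; ring
    · refine mul_ne_zero (pow_ne_zero _ ?_) hs'0
      intro h
      have h1 : coeff 0 (X 1 + C c : MvPolynomial (Fin 2) ℂ) = 0 := by rw [h]; simp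
      simp at h1
      exact hc h1
    · intro h; omega
    · intro _
      refine ⟨Inv_onU_mul ?_ hOn, hc1', ?_⟩
      · have : coeff 0 ((X 1 + C c : MvPolynomial (Fin 2) ℂ) ^ N2) = c ^ N2 := by
          rw [← constantCoeff_eq, map_pow]
          simp
        rw [this]
        exact pow_ne_zero _ hc
      · have : (A + B + 1) * (0 + c1') = (A + B + 1) * c1' := by ring
        rw [this]
        omega
    · intro h; omega

lemma Inv_stepB {G : MvPolynomial (Fin 2) ℂ} {A B : ℕ} (hG : coeff 0 G = 0) (hI : Inv G A B) :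
    Inv (aeval blB G) A (A + B + 1) := by
  obtain ⟨N1, N2, c1, c2, s, hGs, hs, hA0, hB0, hA, hB⟩ := hI
  obtain ⟨M, hM, hM'⟩ := Inv_order hs
  have hpos := Inv_pos hG hGs hM'
  obtain ⟨s', c2', hs', hs'0, hOn, hc2, hU⟩ := chartB hs hM hM'
  have hAM : A * M ≤ N1 := by
    rcases Nat.eq_zero_or_pos A with h | h
    · subst h; simp
    · obtain ⟨h1, h2, -⟩ := hA h
      exact (Nat.mul_le_mul_left _ (Inv_le_of_coeff hM h1.1)).trans h2
  have hBM : B * M ≤ N2 := by
    rcases Nat.eq_zero_or_pos B with h | h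
    · subst h; simp
    · obtain ⟨h1, h2, -⟩ := hB h
      exact (Nat.mul_le_mul_left _ (Inv_le_of_coeff hM h1.1)).trans h2
  have himg : aeval blB G = X 0 ^ N1 * X 1 ^ (N1 + N2 + M) * s' := by
    rw [hGs, map_mul, map_mul, map_pow, map_pow, aeval_X, aeval_X, hs']
    simp only [blB, Matrix.cons_val_zero, Matrix.cons_val_one]
    ring
  have hsum : (A + B + 1) * M ≤ N1 + N2 + M := by
    have : (A + B + 1) * M = A * M + B * M + M := by ring
    omega
  have hc2' : (A + B + 1) * c2' ≤ N1 + N2 + M :=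
    (Nat.mul_le_mul_left _ hc2).trans hsum
  refine ⟨N1, N1 + N2 + M, c1 - M, c2', s', himg, hs'0, hA0, ?_, ?_, ?_⟩
  · intro h; omega
  · intro hApos
    obtain ⟨h1, h2, h3⟩ := hA hApos
    obtain ⟨h4, h5⟩ := hU c1 h1
    refine ⟨h5, (Nat.mul_le_mul_left _ (Nat.sub_le _ _)).trans h2, ?_⟩
    have h6 : N1 + N2 + M + (c1 - M) = N2 + c1 + N1 := by omega
    rw [h6]
    have h7 : A * (N2 + c1 + N1) = A * (N2 + c1) + A * N1 := by ring
    have h8 : (A + B + 1 + 2) * N1 = (B + 2) * N1 + A * N1 + N1 := by ring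
    rw [h7, h8]
    omega
  · intro _
    refine ⟨hOn, hc2', ?_⟩
    have h1 : (A + B + 1) * (N1 + c2') ≤ (A + B + 1) * (N1 + M) :=
      Nat.mul_le_mul_left _ (by omega)
    refine lt_of_le_of_lt h1 ?_
    rcases Nat.eq_zero_or_pos B with h | h
    · subst h
      have : (A + 0 + 1) * (N1 + M) = (A + 1) * N1 + (A + 1) * M := by ring
      rw [this]
      have h2 : (A + 2) * (N1 + N2 + M) = (A + 2) * N2 + (A + 1) * N1 + N1 + (A + 1) * M + M := by
        ring
      rw [h2]
      have h3 : N2 ≤ (A + 2) * N2 := Nat.le_mul_of_pos_left _ (by omega)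
      omega
    · obtain ⟨h1, h2, h3⟩ := hB h
      have h4 := Inv_le_of_coeff hM h1.1
      have h5 : (B - 1) * (N1 + M) ≤ B * (N1 + c2) :=
        Nat.mul_le_mul (by omega) (by omega)
      obtain ⟨B', rfl⟩ : ∃ B', B = B' + 1 := ⟨B - 1, by omega⟩
      have h6 : B' + 1 - 1 = B' := by omega
      rw [h6] at h5
      have h7 : (A + (B' + 1) + 1) * (N1 + M) = B' * (N1 + M) + (A + 2) * (N1 + M) := by ring
      have h8 : (A + 2) * (N1 + N2 + M) = (A + 2) * N2 + (A + 2) * (N1 + M) := by ring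
      rw [h7, h8]
      omega

lemma Inv_coeff_zero {g : MvPolynomial (Fin 2) ℂ} (hg1 : Ord 1 g)
    {Ψ : Fin 2 → MvPolynomial (Fin 2) ℂ} (hΨ : ∀ i, Ord 1 (Ψ i)) :
    coeff 0 (aeval Ψ g) = 0 := by
  by_contra h
  have h1 := ord_aeval hΨ hg1 _ (mem_support_iff.2 h)
  simp at h1

lemma Inv_comp (β Ψ : Fin 2 → MvPolynomial (Fin 2) ℂ) (g : MvPolynomial (Fin 2) ℂ) :
    aeval (fun i => aeval β (Ψ i)) g = aeval β (aeval Ψ g) := by
  have h : (aeval (fun i => aeval β (Ψ i)) : MvPolynomial (Fin 2) ℂ →ₐ[ℂ] MvPolynomial (Fin 2) ℂ) =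
      (aeval β).comp (aeval Ψ) := by
    refine MvPolynomial.algHom_ext fun i => ?_
    simp
  rw [h]; rfl

/-- **The invariant holds at all infinitely near points.** -/
theorem near_inv {g : MvPolynomial (Fin 2) ℂ} (hg0 : g ≠ 0) (hg1 : Ord 1 g)
    {Ψ : Fin 2 → MvPolynomial (Fin 2) ℂ} {A B : ℕ} (h : Near Ψ A B) : Inv (aeval Ψ g) A B := by
  induction h with
  | base =>
    have : aeval (X : Fin 2 → MvPolynomial (Fin 2) ℂ) g = g := by simp
    rw [this]
    exact Inv_base hg0
  | @blA Ψ A B c h ih =>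
    rw [Inv_comp]
    exact Inv_stepA (Inv_coeff_zero hg1 (near_jac h).1) ih c
  | @blB Ψ A B h ih =>
    rw [Inv_comp]
    exact Inv_stepB (Inv_coeff_zero hg1 (near_jac h).1) ih

lemma Inv_comp_zero {N K : ℕ} {φ : MvPolynomial (Fin 2) ℂ} (h : Ord K φ) (hN : N < K) :
    homogeneousComponent N φ = 0 := by
  ext m
  rw [coeff_homogeneousComponent, coeff_zero]
  split_ifs with hm
  · by_contra hne
    have := h _ (mem_support_iff.2 hne)
    rw [Inv_degree, hm] at this
    omega
  · rfl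

lemma Inv_ord_sub {s : MvPolynomial (Fin 2) ℂ} {M : ℕ} (hM : Ord M s) :
    Ord (M + 1) (s - homogeneousComponent M s) := by
  intro m hm
  rw [Inv_degree]
  rw [mem_support_iff, coeff_sub, coeff_homogeneousComponent] at hm
  by_cases h : m.degree = M
  · rw [if_pos h] at hm; simp at hm
  · rw [if_neg h, sub_zero] at hm
    have := hM _ (mem_support_iff.2 hm)
    rw [Inv_degree] at this
    omega

/-- The initial form of `X 0 ^ N1 * X 1 ^ N2 * s`. -/
lemma Inv_initial {s g0 : MvPolynomial (Fin 2) ℂ} {M N N1 N2 : ℕ} (hM : Ord M s)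
    (hM' : homogeneousComponent M s ≠ 0) (h0 : g0.IsHomogeneous N) (h00 : g0 ≠ 0)
    (hgg : Ord (N + 1) (X 0 ^ N1 * X 1 ^ N2 * s - g0)) :
    N = N1 + N2 + M ∧ g0 = X 0 ^ N1 * X 1 ^ N2 * homogeneousComponent M s := by
  set P : MvPolynomial (Fin 2) ℂ := X 0 ^ N1 * X 1 ^ N2 with hP
  have hPh : P.IsHomogeneous (N1 + N2) := by
    rw [hP]
    exact (isHomogeneous_X_pow _ _).mul (isHomogeneous_X_pow _ _)
  have hP0 : P ≠ 0 := by
    rw [hP]
    exact mul_ne_zero (pow_ne_zero _ (X_ne_zero _)) (pow_ne_zero _ (X_ne_zero _))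
  have hPs : (P * homogeneousComponent M s).IsHomogeneous (N1 + N2 + M) :=
    hPh.mul (homogeneousComponent_isHomogeneous _ _)
  have hPs0 : P * homogeneousComponent M s ≠ 0 := mul_ne_zero hP0 hM'
  have hPord : Ord (N1 + N2) P := by
    intro m hm
    rw [Inv_degree]
    exact le_of_eq (hPh (mem_support_iff.1 hm) |>.symm.trans (by rw [← Inv_degree]; rfl))
  have hrest : Ord (N1 + N2 + M + 1) (P * s - P * homogeneousComponent M s) := by
    rw [← mul_sub]
    have := hPord.mul (Inv_ord_sub hM)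
    exact this
  have e1 : homogeneousComponent (N1 + N2 + M) (P * s) = P * homogeneousComponent M s := by
    have h1 := Inv_comp_zero hrest (Nat.lt_succ_self _)
    rw [map_sub, sub_eq_zero, homogeneousComponent_of_mem hPs, if_pos rfl] at h1
    exact h1
  have e2 : homogeneousComponent N (P * s) = g0 := by
    have h1 := Inv_comp_zero hgg (Nat.lt_succ_self _)
    rw [map_sub, sub_eq_zero, homogeneousComponent_of_mem h0, if_pos rfl] at h1
    exact h1
  have hN : N = N1 + N2 + M := by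
    rcases lt_trichotomy N (N1 + N2 + M) with h | h | h
    · exfalso
      apply h00
      have h1 := Inv_comp_zero hrest (show N < N1 + N2 + M + 1 by omega)
      rw [map_sub, sub_eq_zero, homogeneousComponent_of_mem hPs, if_neg (by omega), e2] at h1
      exact h1
    · exact h
    · exfalso
      apply hPs0
      have h1 := Inv_comp_zero hgg (show N1 + N2 + M < N + 1 by omega)
      rw [map_sub, sub_eq_zero, homogeneousComponent_of_mem h0, if_neg (by omega), e1] at h1
      exact h1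
  refine ⟨hN, ?_⟩
  rw [← e2, hN, e1]

/-- **The inequalities for the initial form.** -/
theorem near_ineq {g : MvPolynomial (Fin 2) ℂ} (hg : g ≠ 0) (hg1 : Ord 1 g)
    {Ψ : Fin 2 → MvPolynomial (Fin 2) ℂ} {A B : ℕ} (h : Near Ψ A B) {N : ℕ}
    {g0 : MvPolynomial (Fin 2) ℂ} (h0 : g0.IsHomogeneous N) (h00 : g0 ≠ 0)
    (hgg : Ord (N + 1) (aeval Ψ g - g0)) :
    ∃ N1 N2 : ℕ, X 0 ^ N1 ∣ g0 ∧ X 1 ^ N2 ∣ g0 ∧
      (A = 0 ∨ A * N < (A + B + 2) * N1) ∧ (B = 0 ∨ B * N < (A + B + 2) * N2) := by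
  obtain ⟨N1, N2, c1, c2, s, hGs, hs, hA0, hB0, hA, hB⟩ := near_inv hg hg1 h
  obtain ⟨M, hM, hM'⟩ := Inv_order hs
  rw [hGs] at hgg
  obtain ⟨hN, hg0⟩ := Inv_initial hM hM' h0 h00 hgg
  refine ⟨N1, N2, ?_, ?_, ?_, ?_⟩
  · rw [hg0]; exact ⟨X 1 ^ N2 * homogeneousComponent M s, by ring⟩
  · rw [hg0]; exact ⟨X 0 ^ N1 * homogeneousComponent M s, by ring⟩
  · rcases Nat.eq_zero_or_pos A with h | h
    · exact Or.inl h
    · right
      obtain ⟨h1, h2, h3⟩ := hA h
      have h4 := Inv_le_of_coeff hM h1.1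
      have h5 : A * (N2 + M) ≤ A * (N2 + c1) := Nat.mul_le_mul_left _ (by omega)
      have h6 : A * N = A * N1 + A * (N2 + M) := by rw [hN]; ring
      have h7 : (A + B + 2) * N1 = A * N1 + (B + 2) * N1 := by ring
      rw [h6, h7]
      omega
  · rcases Nat.eq_zero_or_pos B with h | h
    · exact Or.inl h
    · right
      obtain ⟨h1, h2, h3⟩ := hB h
      have h4 := Inv_le_of_coeff hM h1.1
      have h5 : B * (N1 + M) ≤ B * (N1 + c2) := Nat.mul_le_mul_left _ (by omega)
      have h6 : B * N = B * N2 + B * (N1 + M) := by rw [hN]; ring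
      have h7 : (A + B + 2) * N2 = B * N2 + (A + 2) * N2 := by ring
      rw [h6, h7]
      omega

end Pool.Agent.helper92.LI
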