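import Mathlib
import Pool.Agent.helper92.LI.Defs
import Pool.Agent.helper92.LW.WChartInit

/-!
# Project LI, module ChartInit2: initial form in the chart, error terms of high weight

`Pool.Agent.helper92.LW.wchart_init` with the hypothesis `hFY` for the weights `α` (weaker).
-/

set_option autoImplicit false

namespace Pool.Agent.helper92.LI

open MvPolynomial Filter Topology Asymptotics
open Pool.Agent.helper67.ND Pool.Agent.helper67.IF Pool.Agent.helper92.LC Pool.Agent.helper92.LW

variable {m : ℕ}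

/-- **Initial form in the chart.**
PROOF.  Copy the proof of `LW.wchart_init`.  The only place where `hFY` is used is
`h1 : Ge b (k * (M + 1)) (aeval Y (tr q (dh f0)) - g)` (`b i = k * α i`), inside `hE1`; it now follows
directly: for `u` in the support `M + 1 ≤ ∑ u_i α_i` gives `k (M + 1) ≤ ∑ u_i (k α_i)`. -/
theorem wchart_init2 {a : Fin (m + 1) → ℕ} (ha : ∀ i, 1 ≤ a i) {N k : ℕ} (hk : 1 ≤ k)
    {f0 h : MvPolynomial (Fin (m + 1)) ℂ}
    (hf0 : f0.IsWeightedHomogeneous a N) (hh : h.IsWeightedHomogeneous a (N + k))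
    {f : (Fin (m + 1) → ℂ) → ℂ} (hf : AnalyticAt ℂ f 0)
    (hO : ∀ z : Fin (m + 1) → ℂ,
      (fun t : ℂ => f (fun i => t ^ a i * z i) - (t ^ N * eval z f0 + t ^ (N + k) * eval z h))
        =O[𝓝 0] (fun t : ℂ => ‖t‖ ^ (N + k + 1)))
    {q : Fin m → ℂ} {Y : Fin m → MvPolynomial (Fin m) ℂ} (hY : ∀ i, Ord 1 (Y i))
    {α : Fin m → ℕ} {M : ℕ} (hα : ∀ i, 1 ≤ α i) (hM : 1 ≤ M) {g : MvPolynomial (Fin m) ℂ}
    (hg : g.IsWeightedHomogeneous α M) (hFY : Ge α (M + 1) (aeval Y (tr q (dh f0)) - g)) :
    HasInitialForm (wwt k M α) ((N + k) * M)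
      (fun ξ => f (fun i => eval ξ (wchart a (fun j => Y j + C (q j)) i)))
      (X (Fin.last m) ^ N * (rename Fin.castSucc g + C (eval (pt q) h) * X (Fin.last m) ^ k)) := by
  -- a polynomial approximation
  obtain ⟨P, hP⟩ := Apx.exists hf (N + k + 1)
  have hR : Ge a (N + k + 1) (P - f0 - h) := by
    refine Ge_of_scal (N + k + 1) _ fun z => ?_
    have h1 : (fun t : ℂ => f (scal a t z) - eval (scal a t z) P) =O[𝓝 0]
        (fun t : ℂ => ‖t‖ ^ (N + k + 1)) :=
      isBigO_scal ha (g := fun z => f z - eval z P) hP.2 z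
    have h2 := hO z
    refine (h2.sub h1).congr_left fun t => ?_
    rw [map_sub, map_sub, eval_scal_homog hf0, eval_scal_homog hh]
    change (f (scal a t z) - (t ^ N * eval z f0 + t ^ (N + k) * eval z h)) -
      (f (scal a t z) - eval (scal a t z) P) = _
    ring
  intro ξ
  set x : ℂ := ξ (Fin.last m) with hx
  set η : Fin m → ℂ := fun i => ξ i.castSucc with hη
  -- the small variables
  set b : Fin m → ℕ := fun i => k * α i with hb
  have hb1 : ∀ i, 1 ≤ b i := fun i => Nat.mul_pos hk (hα i)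
  set W : ℂ → Fin m → ℂ := fun t i => eval (scal b t η) (Y i) + q i with hW
  set Ψ : ℂ → Fin (m + 1) → ℂ := fun t => scal a (t ^ M * x) (pt (W t)) with hΨ
  have hchart : ∀ t : ℂ, (fun i => eval (fun i => t ^ wwt k M α i * ξ i)
      (wchart a (fun j => Y j + C (q j)) i)) = Ψ t := by
    intro t
    funext i
    refine Fin.lastCases ?_ (fun i => ?_) i
    · rw [wchart_last, map_pow, eval_X, WChartInit_last, hΨ]
      simp only [scal, pt_last, mul_one]
      rfl
    · rw [wchart_castSucc, map_mul, map_pow, eval_X, WChartInit_last, eval_rename, map_add,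
        eval_C, hΨ]
      simp only [scal, pt_castSucc]
      have e1 : ((fun i => t ^ wwt k M α i * ξ i) ∘ Fin.castSucc) = scal b t η := by
        funext j
        simp only [Function.comp_apply, WChartInit_castSucc, scal, hb, hη]
      rw [e1]
  -- differentiability
  have hscal : ∀ i, DifferentiableAt ℂ (fun t : ℂ => scal b t η i) 0 := by
    intro i
    change DifferentiableAt ℂ (fun t : ℂ => t ^ b i * η i) 0
    fun_prop
  have hscal0 : scal b 0 η = 0 := by
    funext i
    simp only [scal, Pi.zero_apply]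
    rw [zero_pow (by have := hb1 i; omega), zero_mul]
  have hWd : ∀ i, DifferentiableAt ℂ (fun t : ℂ => W t i) 0 := by
    intro i
    have h1 : DifferentiableAt ℂ (fun y : Fin m → ℂ => eval y (Y i)) (scal b 0 η) :=
      (analyticAt_eval (Y i) _).differentiableAt
    have h2 : DifferentiableAt ℂ (fun t : ℂ => scal b t η) 0 := differentiableAt_pi.2 hscal
    exact (DifferentiableAt.comp (𝕜 := ℂ) (g := fun y : Fin m → ℂ => eval y (Y i))
      (f := fun t : ℂ => scal b t η) 0 h1 h2).add_const _
  have hPd : DifferentiableAt ℂ (fun t : ℂ => pt (W t)) 0 := by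
    refine differentiableAt_pi.2 fun i => ?_
    refine Fin.lastCases ?_ (fun i => ?_) i
    · simp [pt_last]
    · simp only [pt_castSucc]
      exact hWd i
  have hW0 : W 0 = q := by
    funext i
    have h1 : eval (scal b 0 η) (Y i) = 0 := by
      rw [hscal0]
      have h2 : coeff 0 (Y i) = 0 := by
        by_contra hne
        have h3 := hY i 0 (mem_support_iff.2 hne)
        simp at h3
      have h4 : eval (0 : Fin m → ℂ) (Y i) = constantCoeff (Y i) := by
        rw [eval_zero]
      rw [h4]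
      exact h2
    simp only [hW, h1, zero_add]
  -- first form
  have hff : ∀ t, eval (Ψ t) f0 = (t ^ M * x) ^ N *
      (t ^ (k * M) * eval η g + eval (scal b t η) (aeval Y (tr q (dh f0)) - g)) := by
    intro t
    rw [hΨ]
    simp only []
    rw [eval_scal_homog hf0, ← eval_dh]
    congr 1
    have e1 : eval (scal b t η) g = t ^ (k * M) * eval η g := by
      have e2 : scal b t η = scal α (t ^ k) η := by
        funext i
        simp only [scal, hb, pow_mul]
      rw [e2, eval_scal_homog hg, ← pow_mul]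
    rw [map_sub, e1]
    have e3 : eval (scal b t η) (aeval Y (tr q (dh f0))) = eval (W t) (dh f0) := by
      have e4 : ∀ P : MvPolynomial (Fin m) ℂ, eval (scal b t η) (aeval Y P) =
          eval (fun i => eval (scal b t η) (Y i)) P := by
        intro P
        induction P using MvPolynomial.induction_on with
        | C c => simp
        | add p r hp hr => simp only [map_add, hp, hr]
        | mul_X p i hp => rw [map_mul, map_mul, hp, map_mul, aeval_X, eval_X]
      rw [e4, eval_tr]
    rw [e3]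
    ring
  -- second form
  have hhf : ∀ t, eval (Ψ t) h = (t ^ M * x) ^ (N + k) * eval (pt (W t)) h := by
    intro t
    rw [hΨ]
    simp only []
    rw [eval_scal_homog hh]
  -- the error terms
  have hE1 : (fun t : ℂ => (t ^ M * x) ^ N *
      eval (scal b t η) (aeval Y (tr q (dh f0)) - g)) =O[𝓝 0]
      (fun t : ℂ => ‖t‖ ^ ((N + k) * M + 1)) := by
    have h1 : Ge b (k * (M + 1)) (aeval Y (tr q (dh f0)) - g) := by
      intro u hu
      have h2 := hFY u hu
      rw [Finsupp.weight_apply, Finsupp.sum] at h2 ⊢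
      refine (Nat.mul_le_mul_left k h2).trans ?_
      rw [Finset.mul_sum]
      refine Finset.sum_le_sum fun i _ => ?_
      simp only [smul_eq_mul, hb]
      exact le_of_eq (by ring)
    have h2 := ChartInit_ge h1 η
    have h3 : (fun t : ℂ => (t ^ M * x) ^ N) =O[𝓝 0] (fun t : ℂ => ‖t‖ ^ (M * N)) := by
      have h4 := (ChartInit_pow (M * N)).const_mul_left (x ^ N)
      refine h4.congr_left fun t => ?_
      rw [mul_pow, ← pow_mul]
      ring
    have h5 := h3.mul h2
    have h6 : (fun t : ℂ => ‖t‖ ^ (M * N) * ‖t‖ ^ (k * (M + 1))) =O[𝓝 0]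
        (fun t : ℂ => ‖t‖ ^ ((N + k) * M + 1)) := by
      simp only [← pow_add]
      refine ChartInit_pow_mono ?_
      nlinarith
    exact h5.trans h6
  have hE2 : (fun t : ℂ => x ^ (N + k) * (t ^ ((N + k) * M) *
      (eval (pt (W t)) h - eval (pt q) h))) =O[𝓝 0]
      (fun t : ℂ => ‖t‖ ^ ((N + k) * M + 1)) := by
    have h1 : DifferentiableAt ℂ (fun t : ℂ => eval (pt (W t)) h) 0 :=
      DifferentiableAt.comp (𝕜 := ℂ) (g := fun y : Fin (m + 1) → ℂ => eval y h)
        (f := fun t : ℂ => pt (W t)) 0 (analyticAt_eval h _).differentiableAt hPd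
    have h2 := (ChartInit_pow_mul_sub ((N + k) * M) h1).const_mul_left (x ^ (N + k))
    simp only [hW0] at h2
    exact h2
  have hMK : (fun t : ℂ => ‖t‖ ^ (M * (N + k + 1))) =O[𝓝 0]
      (fun t : ℂ => ‖t‖ ^ ((N + k) * M + 1)) := by
    refine ChartInit_pow_mono ?_
    nlinarith
  have hs : (fun t : ℂ => t ^ M * x) =O[𝓝 0] (fun t : ℂ => ‖t‖ ^ M) := by
    refine ((ChartInit_pow M).const_mul_left x).congr_left fun t => ?_
    ring
  have hE4 : (fun t : ℂ => eval (Ψ t) (P - f0 - h)) =O[𝓝 0]
      (fun t : ℂ => ‖t‖ ^ ((N + k) * M + 1)) :=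
    (WChartInit_ge hR hPd.continuousAt hs).trans hMK
  have hE3 : (fun t : ℂ => f (Ψ t) - eval (Ψ t) P) =O[𝓝 0]
      (fun t : ℂ => ‖t‖ ^ ((N + k) * M + 1)) := by
    have h1 : Ψ =O[𝓝 0] (fun t : ℂ => ‖t‖ ^ M) := by
      rw [isBigO_pi]
      intro i
      have k1 : (fun t : ℂ => (t ^ M * x) ^ a i) =O[𝓝 0] (fun t : ℂ => ‖t‖ ^ M) := by
        refine (hs.pow (a i)).trans ?_
        simp only [← pow_mul]
        exact ChartInit_pow_mono (Nat.le_mul_of_pos_right M (ha i))
      have k2 : (fun t : ℂ => pt (W t) i) =O[𝓝 0] (fun _ : ℂ => (1 : ℝ)) :=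
        (continuousAt_pi.1 hPd.continuousAt i).isBigO_one ℝ
      have k3 := k1.mul k2
      simp only [mul_one] at k3
      exact k3
    have h0 : Tendsto Ψ (𝓝 0) (𝓝 0) := by
      have h4 : Tendsto (fun t : ℂ => ‖t‖ ^ M) (𝓝 0) (𝓝 0) := by
        have h5 : ContinuousAt (fun t : ℂ => ‖t‖ ^ M) 0 := by fun_prop
        have h6 := h5.tendsto
        rw [norm_zero, zero_pow (by omega)] at h6
        exact h6
      exact h1.trans_tendsto h4
    have h7 := (hP.2.comp_tendsto h0).trans (h1.norm_left.pow (N + k + 1))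
    refine (h7.trans ?_).trans hMK
    simp only [← pow_mul]
    exact isBigO_refl _ _
  refine (((hE3.add hE4).add hE1).add hE2).congr_left fun t => ?_
  change _ = f (fun i => eval (fun i => t ^ wwt k M α i * ξ i)
      (wchart a (fun j => Y j + C (q j)) i)) - _
  rw [hchart, map_sub, map_sub, hff, hhf]
  have e5 : eval ξ (X (Fin.last m) ^ N * (rename Fin.castSucc g +
      C (eval (pt q) h) * X (Fin.last m) ^ k)) = x ^ N * (eval η g + eval (pt q) h * x ^ k) := by
    rw [map_mul, map_pow, eval_X, map_add, eval_rename, map_mul, eval_C, map_pow, eval_X]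
    rfl
  rw [e5]
  have e6 : t ^ ((N + k) * M) = (t ^ M) ^ N * (t ^ M) ^ k := by
    rw [← pow_add, ← pow_mul, mul_comm]
  have e7 : t ^ (k * M) = (t ^ M) ^ k := by rw [← pow_mul, mul_comm]
  rw [e6, e7, mul_pow, mul_pow, pow_add, pow_add]
  ring

end Pool.Agent.helper92.LI
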