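import Mathlib
import Pool.Agent.helper92.LI.Defs
import Pool.Agent.helper92.LC.Pull

/-!
# Project LI, module PiolaLin: linear changes of coordinates after a polynomial map
-/

set_option autoImplicit false

namespace Pool.Agent.helper92.LI

open MvPolynomial
open Pool.Agent.helper67.IF Pool.Agent.helper92.LC

variable {n : ℕ}

/-- The composition of the linear map `L` with the polynomial map `Ψ`. -/
noncomputable def linMap (L : Matrix (Fin n) (Fin n) ℂ) (Ψ : Fin n → MvPolynomial (Fin n) ℂ) :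
    Fin n → MvPolynomial (Fin n) ℂ := fun i => ∑ j, C (L i j) * Ψ j

/-- `(L ∘ Ψ)(ξ) = L (Ψ(ξ))`. -/
theorem eval_linMap (L : Matrix (Fin n) (Fin n) ℂ) (Ψ : Fin n → MvPolynomial (Fin n) ℂ)
    (ξ : Fin n → ℂ) :
    (fun i => eval ξ (linMap L Ψ i)) = L.mulVec (fun i => eval ξ (Ψ i)) := by
  funext i
  simp [linMap, Matrix.mulVec, dotProduct]

/-- `L ∘ Ψ` has small components if `Ψ` has. -/
theorem linMap_ge (L : Matrix (Fin n) (Fin n) ℂ) {Ψ : Fin n → MvPolynomial (Fin n) ℂ}
    {a : Fin n → ℕ} (h : ∀ i, Ge a 1 (Ψ i)) : ∀ i, Ge a 1 (linMap L Ψ i) := by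
  intro i
  unfold linMap
  refine Finset.sum_induction _ (fun p => Ge a 1 p) (fun p q hp hq => hp.add hq) ?_ ?_
  · intro m hm
    simp at hm
  · intro j _
    have h1 := (Ge.zero (a := a) (C (L i j))).mul (h j)
    rwa [zero_add] at h1

/-- **Jacobian data of `L ∘ Ψ`.**
PROOF.  `B' i j = ∑ m, C (L.adjugate m i) * B m j`.  `cof`:
`∑_j B'_ij ∂_j (∑_r L_lr Ψ_r) = ∑_m ∑_r adj_mi L_lr (∑_j B_mj ∂_j Ψ_r) = ∑_m adj_mi L_lm J = (L adj)_li J =
δ_il det L J` (`Matrix.mul_adjugate`).  `div`: `∑_j ∂_j B'_ij = ∑_m adj_mi ∑_j ∂_j B_mj = 0`. -/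
theorem piola_linMap (L : Matrix (Fin n) (Fin n) ℂ) {Ψ : Fin n → MvPolynomial (Fin n) ℂ}
    {J : MvPolynomial (Fin n) ℂ} {B : Fin n → Fin n → MvPolynomial (Fin n) ℂ} (h : Piola Ψ J B) :
    ∃ B', Piola (linMap L Ψ) (C L.det * J) B' := by
  refine ⟨fun i j => ∑ m, C (L.adjugate m i) * B m j, ?_, ?_⟩
  · intro i l
    have h1 : ∀ j, (∑ m, C (L.adjugate m i) * B m j) * pderiv j (linMap L Ψ l) =
        ∑ m, ∑ r, C (L.adjugate m i) * C (L l r) * (B m j * pderiv j (Ψ r)) := by
      intro j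
      have h2 : pderiv j (linMap L Ψ l) = ∑ r, C (L l r) * pderiv j (Ψ r) := by
        unfold linMap
        rw [map_sum]
        refine Finset.sum_congr rfl fun r _ => ?_
        rw [Derivation.leibniz, pderiv_C, smul_zero, add_zero, smul_eq_mul]
      rw [h2, Finset.sum_mul_sum]
      refine Finset.sum_congr rfl fun m _ => Finset.sum_congr rfl fun r _ => ?_
      ring
    rw [Finset.sum_congr rfl fun j _ => h1 j, Finset.sum_comm]
    have h3 : ∀ m, ∑ j, ∑ r, C (L.adjugate m i) * C (L l r) * (B m j * pderiv j (Ψ r)) =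
        C (L l m * L.adjugate m i) * J := by
      intro m
      rw [Finset.sum_comm]
      have h4 : ∀ r, ∑ j, C (L.adjugate m i) * C (L l r) * (B m j * pderiv j (Ψ r)) =
          if m = r then C (L l r * L.adjugate m i) * J else 0 := by
        intro r
        rw [← Finset.mul_sum, h.cof m r]
        split_ifs
        · rw [C_mul]
          ring
        · rw [mul_zero]
      rw [Finset.sum_congr rfl fun r _ => h4 r, Finset.sum_ite_eq, if_pos (Finset.mem_univ _)]
    rw [Finset.sum_congr rfl fun m _ => h3 m, ← Finset.sum_mul, ← map_sum]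
    have h5 : ∑ m, L l m * L.adjugate m i = if l = i then L.det else 0 := by
      have h6 := congrFun (congrFun (Matrix.mul_adjugate L) l) i
      rw [Matrix.mul_apply] at h6
      rw [h6]
      simp [Matrix.one_apply]
    rw [h5]
    by_cases hil : i = l
    · rw [if_pos hil, if_pos hil.symm]
    · rw [if_neg hil, if_neg (fun h' => hil h'.symm), C_0, zero_mul]
  · intro i
    have h1 : ∀ j, pderiv j (∑ m, C (L.adjugate m i) * B m j) =
        ∑ m, C (L.adjugate m i) * pderiv j (B m j) := by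
      intro j
      rw [map_sum]
      refine Finset.sum_congr rfl fun m _ => ?_
      rw [Derivation.leibniz, pderiv_C, smul_zero, add_zero, smul_eq_mul]
    rw [Finset.sum_congr rfl fun j _ => h1 j, Finset.sum_comm]
    refine Finset.sum_eq_zero fun m _ => ?_
    rw [← Finset.mul_sum, h.div m, mul_zero]

end Pool.Agent.helper92.LI
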