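import Mathlib
import Pool.Agent.helper92.LI.Defs
import Pool.Agent.helper92.LC.SuspAt

/-!
# Project LI, module SuspAt2: suspensions, functionals which do not vanish at `ψ z ^ r`

Generalises `Pool.Agent.helper92.LC.SuspAt` (copy and adapt; the helper lemmas there can be cited).
-/

set_option autoImplicit false

namespace Pool.Agent.helper92.LI

open MvPolynomial
open Pool.Agent.helper67.IF Pool.Agent.helper92.LC

variable {σ ρ : Type} [Fintype σ] {e1 : σ → ρ} {z : ρ}

/-- **Suspensions `z ^ c (g + κ z ^ p)`**: a Stokes functional which does not vanish at `ψ z ^ r`, `ψ`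
weighted homogeneous of weight `e` (the case `ψ = 1`, `e = 0` is `LC.susp_at`).
PROOF.  Copy the proof of `LC.susp_at`.  The functional is now, for `φ` homogeneous of weight `ε`,
`rename φ * z ^ γ ↦ G φ * W (γ - c k)` if `ε - e = m k` with `k : ℤ` (integer, possibly negative; so use
`(m : ℤ) ∣ (ε : ℤ) - e` and `((ε : ℤ) - e) / m`), and `0` if `m` does not divide `ε - e`.
`W : ℤ → ℂ` satisfies `q κ W (x + q) = (x + 1 - c S) W x`, `q = c + p`, `S = (∑ b_i + e) / m`,
is supported on the class of `r` mod `q`, `W (r + q k) = w k` with `w 0 = 1` and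
`w (k + 1) = ((q k + r + 1 - c S) / (q κ)) w k` (`exists_rec`; `hr` says that the factors with `k < 0` do
not vanish).
* derivative in a variable of `g`: `φ ↦ ∂_i φ` has weight `ε - b_i`, `φ ∂_i g` has weight `ε + m - b_i`:
  `G (∂_i φ) W (γ - c k') = G (φ ∂_i g) W (γ + c - c (k' + 1))`, `k' = (ε - b_i - e) / m`.
* derivative in `z`: with `x = γ - 1 - c k`, `k = (ε - e) / m`, the relation is
  `γ G φ W x = c G (φ g) W x + q κ G φ W (x + q)`, and `G (φ g) = ((ε + ∑ b_i) / m) G φ` (`G_mul_f0`), so it
  is `q κ W (x + q) = (γ - c (ε + ∑ b_i) / m) W x` and `γ - c (ε + ∑ b_i) / m = x + 1 - c S`.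
* value: `G' (ψ z ^ r) = G ψ * W r = G ψ ≠ 0`. -/
theorem susp_at2 (h : Split e1 (fun _ : Unit => z)) {g : MvPolynomial σ ℂ}
    {G : MvPolynomial σ ℂ →ₗ[ℂ] ℂ}
    (hG : ∀ (i : σ) (φ : MvPolynomial σ ℂ), G (pderiv i φ) = G (φ * pderiv i g))
    {b : σ → ℕ} {m : ℕ} (hm : 1 ≤ m) (hb : g.IsWeightedHomogeneous b m)
    {ψ : MvPolynomial σ ℂ} {e : ℕ} (hψ : ψ.IsWeightedHomogeneous b e) (hGψ : G ψ ≠ 0)
    (c p : ℕ) (hp : 1 ≤ p) (κ : ℂ) (hκ : κ ≠ 0) (r : ℕ)
    (hr : ∀ j : ℕ, 1 ≤ j → (r + 1) * m ≠ c * (∑ i, b i + e) + j * ((c + p) * m)) :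
    ∃ G' : MvPolynomial ρ ℂ →ₗ[ℂ] ℂ,
      (∀ (i : ρ) (φ : MvPolynomial ρ ℂ), G' (pderiv i φ) =
        G' (φ * pderiv i (X z ^ c * (rename e1 g + C κ * X z ^ p)))) ∧
      G' (rename e1 ψ * X z ^ r) ≠ 0 := by
  classical
  have hmC : (m : ℂ) ≠ 0 := by exact_mod_cast (by omega : m ≠ 0)
  have hmZ : (m : ℤ) ≠ 0 := by exact_mod_cast (by omega : m ≠ 0)
  set q : ℕ := c + p with hq
  have hqC : (q : ℂ) ≠ 0 := by exact_mod_cast (by omega : q ≠ 0)
  set S : ℂ := (∑ i, (b i : ℂ)) / m + (e : ℂ) / m with hS
  -- the recursion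
  obtain ⟨w, hw0, hw1⟩ := exists_rec (fun k => ((q : ℂ) * k + r + 1 - c * S) / (q * κ)) (by
    intro k hk h0
    have h1 : (q : ℂ) * k + r + 1 - c * S = 0 := by
      rcases div_eq_zero_iff.1 h0 with h2 | h2
      · exact h2
      · exact absurd h2 (mul_ne_zero hqC hκ)
    have h2 : ((m : ℤ) * ((q : ℤ) * k + r + 1) - c * ((∑ i, b i : ℕ) + (e : ℤ)) : ℤ) = 0 := by
      have h3 : ((m : ℂ) * ((q : ℂ) * k + r + 1) - c * (((∑ i, b i : ℕ) : ℂ) + (e : ℂ))) = 0 := by
        rw [hS] at h1
        field_simp at h1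
        push_cast
        linear_combination h1
      exact_mod_cast h3
    obtain ⟨j, hj⟩ : ∃ j : ℕ, (j : ℤ) = -k := ⟨(-k).toNat, Int.toNat_of_nonneg (by omega)⟩
    refine hr j (by omega) ?_
    have hk' : k = -(j : ℤ) := by omega
    rw [hk'] at h2
    have h5 : (((r + 1) * m : ℕ) : ℤ) = ((c * (∑ i, b i + e) + j * (q * m) : ℕ) : ℤ) := by
      push_cast
      push_cast at h2
      linear_combination h2
    exact_mod_cast h5)
  set W : ℤ → ℂ := fun x => if (q : ℤ) ∣ x - r then w ((x - r) / q) else 0 with hW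
  have hWrec : ∀ x : ℤ, (q : ℂ) * κ * W (x + q) = ((x : ℂ) + 1 - c * S) * W x := by
    intro x
    have hqZ : (q : ℤ) ≠ 0 := by exact_mod_cast (by omega : q ≠ 0)
    by_cases hx : (q : ℤ) ∣ x - r
    · obtain ⟨k, hk⟩ := hx
      have e0 : x = r + q * k := by omega
      have e1 : x + q - r = q * (k + 1) := by rw [e0]; ring
      simp only [hW]
      rw [e1, hk, if_pos (Dvd.intro _ rfl), if_pos (Dvd.intro _ rfl),
        Int.mul_ediv_cancel_left _ hqZ, Int.mul_ediv_cancel_left _ hqZ, hw1, e0]
      push_cast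
      field_simp
      ring
    · have hx' : ¬ (q : ℤ) ∣ x + q - r := by
        intro h
        apply hx
        have : x + q - r = x - r + q := by ring
        rw [this] at h
        exact (Int.dvd_add_left (dvd_refl _)).1 h
      simp only [hW]
      rw [if_neg hx, if_neg hx', mul_zero, mul_zero]
  have hW0 : W r = 1 := by
    simp only [hW]
    rw [sub_self, if_pos (dvd_zero _), Int.zero_ediv, hw0]
  -- the functional
  set F : (σ →₀ ℕ) → (Unit →₀ ℕ) → ℂ := fun v u =>
    if (m : ℤ) ∣ (Finsupp.weight b v : ℤ) - e then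
      G (monomial v 1) * W ((u () : ℤ) - c * (((Finsupp.weight b v : ℤ) - e) / m)) else 0 with hF
  have hXz : ∀ γ : ℕ, (X z ^ γ : MvPolynomial ρ ℂ) =
      rename (fun _ : Unit => z) (monomial (Finsupp.single () γ) 1) := by
    intro γ
    rw [rename_monomial, Finsupp.mapDomain_single, X_pow_eq_monomial]
  -- values on homogeneous polynomials
  have hval : ∀ (φ : MvPolynomial σ ℂ) (ε : ℕ), φ.IsWeightedHomogeneous b ε → ∀ γ : ℕ,
      h.G F (rename e1 φ * X z ^ γ) =
        if (m : ℤ) ∣ (ε : ℤ) - e then G φ * W ((γ : ℤ) - c * (((ε : ℤ) - e) / m)) else 0 := by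
    intro φ ε hφ γ
    have h1 : h.G F (rename e1 φ * X z ^ γ) = ∑ v ∈ φ.support, coeff v φ *
        (if (m : ℤ) ∣ (ε : ℤ) - e then
          G (monomial v 1) * W ((γ : ℤ) - c * (((ε : ℤ) - e) / m)) else 0) := by
      conv_lhs => rw [φ.as_sum]
      rw [map_sum, Finset.sum_mul, map_sum]
      refine Finset.sum_congr rfl fun v hv => ?_
      rw [hXz, h.G_monomial, mul_one]
      simp only [hF]
      rw [hφ (mem_support_iff.1 hv), Finsupp.single_eq_same]
    rw [h1]
    by_cases hme : (m : ℤ) ∣ (ε : ℤ) - e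
    · simp only [if_pos hme]
      have h2 : G φ = ∑ v ∈ φ.support, coeff v φ * G (monomial v 1) := by
        conv_lhs => rw [φ.as_sum]
        rw [map_sum]
        refine Finset.sum_congr rfl fun v _ => ?_
        have e1 : (monomial v (coeff v φ) : MvPolynomial σ ℂ) = coeff v φ • monomial v 1 := by
          rw [smul_monomial, smul_eq_mul, mul_one]
        rw [e1, map_smul, smul_eq_mul]
      rw [h2, Finset.sum_mul]
      exact Finset.sum_congr rfl fun v _ => by ring
    · simp only [if_neg hme, mul_zero, Finset.sum_const_zero]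
  refine ⟨h.G F, SuspAt_mono _ _ ?_, ?_⟩
  · intro r' u
    rw [h.monomial_eq u]
    set v := h.c1 u with hv
    set γ : ℕ := h.c2 u () with hγ
    have hu2 : (h.c2 u) = Finsupp.single () γ := by
      ext; simp [hγ]
    rw [hu2, ← hXz]
    have hvh : (monomial v (1 : ℂ)).IsWeightedHomogeneous b (Finsupp.weight b v) :=
      isWeightedHomogeneous_monomial b v 1 rfl
    set ε := Finsupp.weight b v with he
    rcases h.cover r' with ⟨i, rfl⟩ | ⟨j, rfl⟩
    · -- derivative in a variable of `g`
      have hL : pderiv (e1 i) (rename e1 (monomial v (1 : ℂ)) * X z ^ γ) =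
          rename e1 (pderiv i (monomial v (1 : ℂ))) * X z ^ γ := by
        rw [hXz, h.pderiv1]
      have hR : rename e1 (monomial v (1 : ℂ)) * X z ^ γ *
          pderiv (e1 i) (X z ^ c * (rename e1 g + C κ * X z ^ p)) =
          rename e1 (monomial v (1 : ℂ) * pderiv i g) * X z ^ (γ + c) := by
        have h1 : pderiv (e1 i) (X z ^ c * (rename e1 g + C κ * X z ^ p)) =
            rename e1 (pderiv i g) * X z ^ c := by
          have h2 : (X z ^ c * (rename e1 g + C κ * X z ^ p) : MvPolynomial ρ ℂ) =
              rename e1 g * rename (fun _ : Unit => z) (monomial (Finsupp.single () c) 1) +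
              rename e1 1 * rename (fun _ : Unit => z)
                (C κ * monomial (Finsupp.single () (c + p)) 1) := by
            rw [map_mul, ← hXz, ← hXz, rename_C, map_one, pow_add]
            ring
          rw [h2, map_add, h.pderiv1, h.pderiv1, (pderiv i).map_one_eq_zero, map_zero, zero_mul,
            add_zero, ← hXz]
        rw [h1, map_mul, pow_add]
        ring
      rw [hL, hR]
      have hpv : ¬ b i ≤ ε → pderiv i (monomial v (1 : ℂ)) = 0 := by
        intro hbe
        ext w
        rw [coeff_pderiv, coeff_zero]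
        by_contra h3
        have h4 := hvh (left_ne_zero_of_mul h3)
        rw [map_add] at h4
        have h5 : Finsupp.weight b (Finsupp.single i 1) = b i := by
          rw [Finsupp.weight_single]; simp
        omega
      have hpg : ¬ b i ≤ m → pderiv i g = 0 := by
        intro hbm
        ext w
        rw [coeff_pderiv, coeff_zero]
        by_contra h3
        have h4 := hb (left_ne_zero_of_mul h3)
        rw [map_add] at h4
        have h5 : Finsupp.weight b (Finsupp.single i 1) = b i := by
          rw [Finsupp.weight_single]; simp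
        omega
      by_cases hz : G (pderiv i (monomial v 1)) = 0
      · -- both sides vanish
        have hz' : G (monomial v 1 * pderiv i g) = 0 := by rw [← hG]; exact hz
        have h1 : h.G F (rename e1 (pderiv i (monomial v 1)) * X z ^ γ) = 0 := by
          by_cases hbe : b i ≤ ε
          · rw [hval _ (ε - b i) (hvh.pderiv (by omega)), hz, zero_mul, ite_self]
          · rw [hpv hbe, map_zero, zero_mul, map_zero]
        have h2 : h.G F (rename e1 (monomial v 1 * pderiv i g) * X z ^ (γ + c)) = 0 := by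
          by_cases hbm : b i ≤ m
          · rw [hval _ (ε + (m - b i)) (hvh.mul (hb.pderiv (by omega))), hz', zero_mul, ite_self]
          · rw [hpg hbm, mul_zero, map_zero, zero_mul, map_zero]
        rw [h1, h2]
      · have hbe : b i ≤ ε := by
          by_contra hbe
          apply hz
          rw [hpv hbe, map_zero]
        have hbm : b i ≤ m := by
          by_contra hbm
          apply hz
          rw [hG, hpg hbm, mul_zero, map_zero]
        have e3 : (((ε + (m - b i) : ℕ) : ℤ)) - e = (((ε - b i : ℕ) : ℤ) - e) + m := by omega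
        rw [hval _ (ε - b i) (hvh.pderiv (by omega)), hval _ (ε + (m - b i))
          (hvh.mul (hb.pderiv (by omega))), ← hG, e3]
        by_cases hd : (m : ℤ) ∣ ((ε - b i : ℕ) : ℤ) - e
        · rw [if_pos hd, if_pos (Int.dvd_add hd (dvd_refl _)),
            Int.add_ediv_of_dvd_right (dvd_refl _), Int.ediv_self hmZ]
          congr 2
          push_cast
          ring
        · rw [if_neg hd, if_neg (fun h' => hd ((Int.dvd_add_left (dvd_refl _)).1 h'))]
    · -- derivative in `z`
      have hdz : pderiv z (rename e1 (monomial v (1 : ℂ))) = 0 := h.pderiv2_zero () _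
      have hdz' : pderiv z (rename e1 g) = 0 := h.pderiv2_zero () g
      have hL : pderiv z (rename e1 (monomial v (1 : ℂ)) * X z ^ γ) =
          (γ : ℂ) • (rename e1 (monomial v (1 : ℂ)) * X z ^ (γ - 1)) := by
        rw [Derivation.leibniz, hdz, smul_zero, add_zero, Derivation.leibniz_pow, pderiv_X_self,
          smul_eq_mul, smul_eq_mul, nsmul_eq_mul, mul_one, smul_eq_C_mul, map_natCast]
        ring
      have hR : rename e1 (monomial v (1 : ℂ)) * X z ^ γ *
          pderiv z (X z ^ c * (rename e1 g + C κ * X z ^ p)) =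
          (c : ℂ) • (rename e1 (monomial v (1 : ℂ) * g) * X z ^ (γ + c - 1)) +
          ((q : ℂ) * κ) • (rename e1 (monomial v (1 : ℂ)) * X z ^ (γ + q - 1)) := by
        rw [Derivation.leibniz, map_add, hdz', zero_add, Derivation.leibniz_pow,
          Derivation.leibniz, Derivation.leibniz_pow, pderiv_X_self, pderiv_C]
        simp only [smul_eq_mul, nsmul_eq_mul, mul_one, smul_zero, add_zero, smul_eq_C_mul,
          map_natCast, map_mul]
        have h1 : (X z ^ γ * ((c : MvPolynomial ρ ℂ) * X z ^ (c - 1))) =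
            (c : MvPolynomial ρ ℂ) * X z ^ (γ + c - 1) := by
          rcases Nat.eq_zero_or_pos c with h0 | h0
          · rw [h0]; simp
          · have : γ + c - 1 = γ + (c - 1) := by omega
            rw [this, pow_add]; ring
        have h2 : (X z ^ γ * (X z ^ c * (C κ * ((p : MvPolynomial ρ ℂ) * X z ^ (p - 1))))) =
            (p : MvPolynomial ρ ℂ) * C κ * X z ^ (γ + q - 1) := by
          have : γ + q - 1 = γ + (c + (p - 1)) := by omega
          rw [this, pow_add, pow_add]; ring
        have h3 : (c : MvPolynomial ρ ℂ) * X z ^ (γ + c - 1) * X z ^ p =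
            (c : MvPolynomial ρ ℂ) * X z ^ (γ + q - 1) := by
          rcases Nat.eq_zero_or_pos c with h0 | h0
          · rw [h0]; simp
          · have : γ + q - 1 = γ + c - 1 + p := by omega
            rw [this, pow_add]; ring
        have h4 : (q : MvPolynomial ρ ℂ) = c + p := by rw [hq]; push_cast; ring
        calc _ = rename e1 (monomial v 1) * ((X z ^ γ * (X z ^ c *
              (C κ * ((p : MvPolynomial ρ ℂ) * X z ^ (p - 1))))) +
              (X z ^ γ * ((c : MvPolynomial ρ ℂ) * X z ^ (c - 1))) *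
                (rename e1 g + C κ * X z ^ p)) := by ring
          _ = rename e1 (monomial v 1) * ((p : MvPolynomial ρ ℂ) * C κ * X z ^ (γ + q - 1) +
              (c : MvPolynomial ρ ℂ) * X z ^ (γ + c - 1) * rename e1 g +
              C κ * ((c : MvPolynomial ρ ℂ) * X z ^ (γ + c - 1) * X z ^ p)) := by
                rw [h1, h2]; ring
          _ = _ := by rw [h3, h4]; ring
      have e4 : ((ε + m : ℕ) : ℤ) - e = ((ε : ℤ) - e) + m := by push_cast; ring
      rw [hL, hR, map_smul, map_add, map_smul, map_smul, hval _ ε hvh, hval _ ε hvh,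
        hval _ (ε + m) (hvh.mul hb), G_mul_f0 hm hb hG hvh, smul_eq_mul, smul_eq_mul, smul_eq_mul,
        e4]
      by_cases hd : (m : ℤ) ∣ (ε : ℤ) - e
      · rw [if_pos hd, if_pos (Int.dvd_add hd (dvd_refl _)),
          Int.add_ediv_of_dvd_right (dvd_refl _), Int.ediv_self hmZ, if_pos hd]
        obtain ⟨k, hk⟩ := hd
        have hek : ((ε : ℤ) - e) / m = k := by rw [hk, Int.mul_ediv_cancel_left _ hmZ]
        rw [hek]
        have hkC : (∑ i, (b i : ℂ)) / m + (ε : ℂ) / m = S + k := by
          have h1 : (ε : ℂ) = e + m * k := by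
            have h2 : ((ε : ℤ) : ℂ) = ((e + m * k : ℤ) : ℂ) := by
              congr 1
              linarith
            push_cast at h2
            exact h2
          rw [h1, hS]
          field_simp
          ring
        rw [hkC]
        set x : ℤ := (γ : ℤ) - 1 - c * k with hx
        have hxr := hWrec x
        have e1 : ((((γ + q - 1 : ℕ) : ℤ)) - c * k) = x + q := by
          rw [hx]; push_cast [Nat.cast_sub (show 1 ≤ γ + q by omega)]; ring
        rw [e1]
        have e2 : (γ : ℂ) * (G (monomial v 1) * W ((((γ - 1 : ℕ) : ℤ)) - c * k)) =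
            (γ : ℂ) * (G (monomial v 1) * W x) := by
          rcases Nat.eq_zero_or_pos γ with h0 | h0
          · rw [h0]; simp
          · rw [hx]; push_cast [Nat.cast_sub h0]; rfl
        have e3 : (c : ℂ) * ((S + k) * G (monomial v 1) *
            W ((((γ + c - 1 : ℕ) : ℤ)) - c * (k + 1))) =
            (c : ℂ) * ((S + k) * G (monomial v 1) * W x) := by
          rcases Nat.eq_zero_or_pos c with h0 | h0
          · rw [h0]; simp
          · have : ((((γ + c - 1 : ℕ) : ℤ)) - c * (k + 1)) = x := by
              rw [hx]; push_cast [Nat.cast_sub (show 1 ≤ γ + c by omega)]; ring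
            rw [this]
        rw [e2, e3]
        have hxC : (x : ℂ) = (γ : ℂ) - 1 - c * k := by rw [hx]; push_cast; ring
        rw [hxC] at hxr
        linear_combination (-G (monomial v 1)) * hxr
      · rw [if_neg hd, if_neg (fun h' => hd ((Int.dvd_add_left (dvd_refl _)).1 h')), if_neg hd]
        simp
  · rw [hval ψ e hψ, sub_self, if_pos (dvd_zero _)]
    have h0 : ((r : ℤ) - c * ((0 : ℤ) / m)) = r := by
      rw [Int.zero_ediv]
      ring
    rw [h0, hW0, mul_one]
    exact hGψ

end Pool.Agent.helper92.LI
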