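import Mathlib
import Pool.Agent.helper92.LI.Defs
import Pool.Agent.helper92.LI.SuspAt2
import Pool.Agent.helper92.LI.ChartInit2
import Pool.Agent.helper92.LI.PiolaLin

/-!
# Project LI, module PointRoot2: the root attached to an infinitely near point

Adapt `Pool.Agent.helper92.LW.WPointRoot` (helper lemmas there can be cited).  The imported modules are used
through their stubs.
-/

set_option autoImplicit false

namespace Pool.Agent.helper92.LI

open MvPolynomial Filter Topology Asymptotics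
open Pool.Agent.helper67.ND Pool.Agent.helper67.IF Pool.Agent.helper92.LC Pool.Agent.helper92.LW

variable {m : ℕ}

lemma PointRoot2_rename_homog {k M e : ℕ} {α : Fin m → ℕ} {ψ : MvPolynomial (Fin m) ℂ}
    (hψ : ψ.IsWeightedHomogeneous α e) :
    (rename Fin.castSucc ψ : MvPolynomial (Fin (m + 1)) ℂ).IsWeightedHomogeneous (wwt k M α)
      (k * e) := by
  intro u hu
  obtain ⟨v, hv, hc⟩ := coeff_rename_ne_zero _ _ _ hu
  have h1 := hψ hc
  rw [← hv, ← h1, Finsupp.weight_apply, Finsupp.weight_apply,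
    Finsupp.sum_mapDomain_index (by simp) (by intro b m1 m2; rw [add_smul]), Finsupp.sum,
    Finsupp.sum, Finset.mul_sum]
  refine Finset.sum_congr rfl fun i _ => ?_
  rw [WPointRoot_wwt_castSucc, smul_eq_mul, smul_eq_mul]
  ring

lemma PointRoot2_rename_ge {k M e : ℕ} {α : Fin m → ℕ} {φ : MvPolynomial (Fin m) ℂ}
    (hφ : Ge α e φ) :
    Ge (wwt k M α) (k * e) (rename Fin.castSucc φ : MvPolynomial (Fin (m + 1)) ℂ) := by
  intro u hu
  obtain ⟨v, hv, hc⟩ := coeff_rename_ne_zero _ _ _ (mem_support_iff.1 hu)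
  have h1 := hφ v (mem_support_iff.2 hc)
  have h2 : Finsupp.weight (wwt k M α) u = k * Finsupp.weight α v := by
    rw [← hv, Finsupp.weight_apply, Finsupp.weight_apply,
      Finsupp.sum_mapDomain_index (by simp) (by intro b m1 m2; rw [add_smul]), Finsupp.sum,
      Finsupp.sum, Finset.mul_sum]
    refine Finset.sum_congr rfl fun i _ => ?_
    rw [WPointRoot_wwt_castSucc, smul_eq_mul, smul_eq_mul]
    ring
  rw [h2]
  exact Nat.mul_le_mul_left k h1

lemma PointRoot2_ne_zero {e : ℕ} {α : Fin m → ℕ} {ψ u : MvPolynomial (Fin m) ℂ}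
    (hψ : ψ.IsWeightedHomogeneous α e) (hψ0 : ψ ≠ 0) (hu : Ge α (e + 1) (u - ψ)) : u ≠ 0 := by
  rintro rfl
  apply hψ0
  ext μ
  rw [coeff_zero]
  by_contra hc
  have h1 := hψ hc
  have h2 : μ ∈ (0 - ψ : MvPolynomial (Fin m) ℂ).support := by
    rw [mem_support_iff, zero_sub, coeff_neg]
    exact neg_ne_zero.2 hc
  have h3 := hu μ h2
  omega

/-- **The root of an infinitely near point.**  `Y : ℂ ^ m → ℂ ^ m` is a polynomial map with `Y(0) = 0`
whose Jacobian determinant has the initial form `ψ` (weights `α`, weight `e`), `f0(q + Y, 1)` has the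
initial form `g` of weight `M`, `G` is a Stokes functional of `g` with `G ψ ≠ 0`, and `h(q, 1) ≠ 0`.  Then
`- (|a| M + k (|α| + e)) / ((N + k) M)` is a root of the Bernstein-Sato polynomial of `f`, where
`f ∘ L = f0 + h + ...`, `L` an invertible matrix.
PROOF.  As `LW.wpoint_root`, with the map `linMap L (wchart a (Y + q))`: `u = (jacM Y).det` is not zero
(its component of weight `e` is `ψ`, and `ψ ≠ 0` since `G ψ ≠ 0`), `piola`, `piola_wchart`,
`piola_linMap` give the Jacobian `J = C L.det * (C a_m * x^(s-1) * rename u)`, `s = ∑ i, a i`,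
`x = X (Fin.last m)`; `J0 = C (L.det * a_m) * x^(s-1) * rename ψ` is homogeneous of weight
`(s - 1) M + k e` for `wwt k M α` (`rename ψ` has weight `k e`), and
`J - J0 = C (..) x^(s-1) rename (u - ψ) ∈ Ge ((s - 1) M + k e + 1)` (`rename (u - ψ) ∈ Ge (k (e + 1))`).
`F0 = x^N (rename g + κ x^k)`, `κ = h(q, 1)`; the initial form of `f ∘ L ∘ chart` is `wchart_init2` for the
germ `fun z => f (L.mulVec z)` (analytic; `L.mulVec 0 = 0`) together with `eval_linMap`; the functional
is `susp_at2` with `c = N`, `p = k`, `m := M`, `r := s - 1`, `b := α` (`hex` is its hypothesis); conclude with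
`initial_form_map`: `- ((s - 1) M + k e + M + k ∑ α_i) / ((N + k) M)`. -/
theorem point_root2 (hm : 1 ≤ m) {a : Fin (m + 1) → ℕ} (ha : ∀ i, 1 ≤ a i) {N k : ℕ} (hk : 1 ≤ k)
    {f0 h : MvPolynomial (Fin (m + 1)) ℂ}
    (hf0 : f0.IsWeightedHomogeneous a N) (hh : h.IsWeightedHomogeneous a (N + k))
    {f : (Fin (m + 1) → ℂ) → ℂ} (hf : AnalyticAt ℂ f 0)
    {L : Matrix (Fin (m + 1)) (Fin (m + 1)) ℂ} (hL : L.det ≠ 0)
    (hO : ∀ z : Fin (m + 1) → ℂ,
      (fun t : ℂ => f (L.mulVec fun i => t ^ a i * z i) -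
        (t ^ N * eval z f0 + t ^ (N + k) * eval z h)) =O[𝓝 0] (fun t : ℂ => ‖t‖ ^ (N + k + 1)))
    {q : Fin m → ℂ} {Y : Fin m → MvPolynomial (Fin m) ℂ} (hY : ∀ i, Ord 1 (Y i))
    {α : Fin m → ℕ} {M : ℕ} (hα : ∀ i, 1 ≤ α i) (hM : 1 ≤ M) {g : MvPolynomial (Fin m) ℂ}
    (hg : g.IsWeightedHomogeneous α M) (hFY : Ge α (M + 1) (aeval Y (tr q (dh f0)) - g))
    {ψ : MvPolynomial (Fin m) ℂ} {e : ℕ} (hψ : ψ.IsWeightedHomogeneous α e)
    (hψY : Ge α (e + 1) ((jacM Y).det - ψ))
    {G : MvPolynomial (Fin m) ℂ →ₗ[ℂ] ℂ} (hG : Stokes g G) (hGψ : G ψ ≠ 0)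
    (hq : eval (pt q) h ≠ 0)
    (hex : ∀ j : ℕ, 1 ≤ j →
      (∑ i, a i) * M ≠ N * (∑ i, α i + e) + j * ((N + k) * M))
    {b : Polynomial ℂ} (hb : IsBernstein f b) :
    b.eval (-(((∑ i, a i) * M + k * (∑ i, α i + e) : ℕ) : ℂ) / ((N + k) * M : ℕ)) = 0 := by
  obtain ⟨s, hs⟩ : ∃ s, ∑ i, a i = s + 1 := by
    have h1 : 1 ≤ ∑ i, a i := by
      have h2 := Finset.single_le_sum (f := a) (fun i _ => Nat.zero_le _)
        (Finset.mem_univ (Fin.last m))
      exact (ha _).trans h2
    exact ⟨∑ i, a i - 1, by omega⟩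
  set u := (jacM Y).det with hu
  have hψ0 : ψ ≠ 0 := by
    rintro rfl
    exact hGψ (map_zero G)
  have hune : u ≠ 0 := PointRoot2_ne_zero hψ hψ0 hψY
  have hjac : jacM (fun j => Y j + C (q j)) = jacM Y := by
    ext1 i j
    simp only [jacM, Matrix.of_apply, map_add, pderiv_C, add_zero]
  have hP1 := piola (fun j => Y j + C (q j)) (by rw [hjac]; exact hune)
  rw [hjac, ← hu] at hP1
  obtain ⟨B, hB⟩ := piola_wchart hm ha hP1
  rw [hs, Nat.add_sub_cancel] at hB
  obtain ⟨B', hB'⟩ := piola_linMap L hB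
  have hwt := WPointRoot_wt hk hM hα
  set κ := eval (pt q) h with hκ
  have hF0 := wwt_homog (k := k) (N := N) hg κ
  have hF00 : (X (Fin.last m) ^ N * (rename Fin.castSucc g + C κ * X (Fin.last m) ^ k) :
      MvPolynomial (Fin (m + 1)) ℂ) ≠ 0 := by
    intro h0
    have h1 := congrArg (eval (pt (0 : Fin m → ℂ))) h0
    have h2 : eval (pt (0 : Fin m → ℂ)) (rename Fin.castSucc g) = 0 := by
      rw [eval_rename]
      have h3 : pt (0 : Fin m → ℂ) ∘ Fin.castSucc = 0 := by
        funext i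
        simp
      rw [h3]
      exact PointRoot_eval_zero hM hg
    rw [map_mul, map_add, map_mul, map_pow, map_pow, eval_X, eval_C, pt_last, one_pow, one_pow,
      h2, one_mul, zero_add, mul_one, map_zero] at h1
    exact hq h1
  have hfL : AnalyticAt ℂ (fun z : Fin (m + 1) → ℂ => f (L.mulVec z)) 0 := by
    have hL1 : AnalyticAt ℂ (fun z : Fin (m + 1) → ℂ => L.mulVec z) 0 :=
      (LinearMap.toContinuousLinearMap L.mulVecLin).analyticAt 0
    have h0 : L.mulVec (0 : Fin (m + 1) → ℂ) = 0 := Matrix.mulVec_zero L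
    exact AnalyticAt.comp_of_eq hf hL1 h0
  have hin := wchart_init2 ha hk hf0 hh hfL hO hY hα hM hg hFY
  rw [← hκ] at hin
  obtain ⟨G', hG', hG1⟩ := susp_at2 (e1 := (Fin.castSucc : Fin m → Fin (m + 1)))
    (z := Fin.last m)
    ⟨Fin.castSucc_injective m, fun _ _ _ => rfl, fun i _ h =>
      absurd h (Fin.castSucc_lt_last i).ne, fun r =>
      Fin.lastCases (Or.inr ⟨(), rfl⟩) (fun i => Or.inl ⟨i, rfl⟩) r⟩
    hG hM hg hψ hGψ N k hk κ hq s (by
      intro j hj
      rw [← hs]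
      exact hex j hj)
  set am : ℂ := (a (Fin.last m) : ℂ) with ham
  have ham0 : am ≠ 0 := by
    have h1 := ha (Fin.last m)
    rw [ham]
    exact_mod_cast (by omega : a (Fin.last m) ≠ 0)
  have hCX : (C (L.det * am) * X (Fin.last m) ^ s :
      MvPolynomial (Fin (m + 1)) ℂ).IsWeightedHomogeneous (wwt k M α) (s * M) := by
    have h1 := (isWeightedHomogeneous_C (wwt k M α) (L.det * am)).mul
      (WPointRoot_Xpow (m := m) (k := k) (M := M) (α := α) s)
    rwa [zero_add] at h1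
  have hJ0 : (C (L.det * am) * X (Fin.last m) ^ s * rename Fin.castSucc ψ :
      MvPolynomial (Fin (m + 1)) ℂ).IsWeightedHomogeneous (wwt k M α) (s * M + k * e) :=
    hCX.mul (PointRoot2_rename_homog hψ)
  have hJJ : Ge (wwt k M α) (s * M + k * e + 1)
      (C L.det * (C am * X (Fin.last m) ^ s * rename Fin.castSucc u) -
        C (L.det * am) * X (Fin.last m) ^ s * rename Fin.castSucc ψ) := by
    have h1 : (C L.det * (C am * X (Fin.last m) ^ s * rename Fin.castSucc u) -
        C (L.det * am) * X (Fin.last m) ^ s * rename Fin.castSucc ψ :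
          MvPolynomial (Fin (m + 1)) ℂ) =
        (C (L.det * am) * X (Fin.last m) ^ s) * rename Fin.castSucc (u - ψ) := by
      rw [C_mul, map_sub]
      ring
    rw [h1]
    refine ((Ge.of_homog hCX).mul (PointRoot2_rename_ge hψY)).mono ?_
    rw [Nat.mul_add]
    omega
  have hX : Ge (wwt k M α) 1 (X (Fin.last m) : MvPolynomial (Fin (m + 1)) ℂ) := by
    have h1 := Ge.of_homog (WPointRoot_Xpow (m := m) (k := k) (M := M) (α := α) 1)
    rw [pow_one, one_mul] at h1
    exact h1.mono hM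
  have hXp : ∀ e : ℕ, 1 ≤ e →
      Ge (wwt k M α) 1 (X (Fin.last m) ^ e : MvPolynomial (Fin (m + 1)) ℂ) := by
    intro e he
    have h1 := Ge.of_homog (WPointRoot_Xpow (m := m) (k := k) (M := M) (α := α) e)
    exact h1.mono (Nat.mul_pos he hM)
  have hΨ : ∀ i, Ge (wwt k M α) 1 (wchart a (fun j => Y j + C (q j)) i) := by
    intro i
    refine Fin.lastCases ?_ (fun i => ?_) i
    · rw [wchart_last]
      exact hXp _ (ha _)
    · rw [wchart_castSucc]
      exact ((hXp _ (ha _)).mul (Ge.zero _)).mono (by omega)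
  have hGJ : G' (C (L.det * am) * X (Fin.last m) ^ s * rename Fin.castSucc ψ) ≠ 0 := by
    rw [mul_assoc, mul_comm (X (Fin.last m) ^ s), ← smul_eq_C_mul, map_smul, smul_eq_mul]
    exact mul_ne_zero (mul_ne_zero hL ham0) hG1
  have hdN : 1 ≤ (N + k) * M := Nat.mul_pos (by omega) hM
  have hin' : HasInitialForm (wwt k M α) ((N + k) * M)
      (fun ξ => f (fun i => eval ξ (linMap L (wchart a (fun j => Y j + C (q j))) i)))
      (X (Fin.last m) ^ N * (rename Fin.castSucc g + C κ * X (Fin.last m) ^ k)) := by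
    have h1 : (fun ξ => f (fun i => eval ξ (linMap L (wchart a (fun j => Y j + C (q j))) i)))
        = fun ξ => f (L.mulVec fun i => eval ξ (wchart a (fun j => Y j + C (q j)) i)) := by
      funext ξ
      rw [eval_linMap]
    rw [h1]
    exact hin
  have hfin := initial_form_map (by omega : 1 ≤ m + 1) hwt hdN hf hB' (linMap_ge L hΨ) hF0 hF00
    hin' hJ0 hJJ hG' hGJ hb
  rw [Fin.sum_univ_castSucc] at hfin
  have h5 : ((s * M + k * e : ℕ) : ℂ) + (∑ i : Fin m, (wwt k M α i.castSucc : ℂ) +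
      (wwt k M α (Fin.last m) : ℂ)) =
      (((∑ i, a i) * M + k * (∑ i, α i + e) : ℕ) : ℂ) := by
    rw [hs]
    simp only [WPointRoot_wwt_castSucc, WPointRoot_wwt_last]
    push_cast
    rw [← Finset.mul_sum]
    ring
  rw [h5] at hfin
  exact hfin

end Pool.Agent.helper92.LI
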