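import Mathlib
import Pool.Agent.helper92.LI.Defs

/-!
# Project LI, module Chain2: binary forms, the polynomial `P` attached to a relation

Independent of the other modules.
-/

set_option autoImplicit false

namespace Pool.Agent.helper92.LI

open MvPolynomial

theorem Chain2_hc_pderiv (i : Fin 2) (n : ℕ) (p : MvPolynomial (Fin 2) ℂ) :
    homogeneousComponent n (pderiv i p) = pderiv i (homogeneousComponent (n + 1) p) := by
  induction p using MvPolynomial.induction_on' with
  | monomial d c =>
    rw [pderiv_monomial, homogeneousComponent_of_mem (isHomogeneous_monomial c rfl)]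
    by_cases hd : d i = 0
    · rw [hd, Nat.cast_zero, mul_zero, map_zero, map_zero]
      split_ifs
      · rw [pderiv_monomial, hd, Nat.cast_zero, mul_zero, map_zero]
      · rw [map_zero]
    · have h1 : (d - Finsupp.single i 1).degree + 1 = d.degree := by
        have h2 : d - Finsupp.single i 1 + Finsupp.single i 1 = d := by
          apply tsub_add_cancel_of_le
          rw [Finsupp.single_le_iff]
          omega
        conv_rhs => rw [← h2]
        rw [map_add, Finsupp.degree_single]
      rw [homogeneousComponent_of_mem (isHomogeneous_monomial _ rfl)]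
      by_cases hn : n = (d - Finsupp.single i 1).degree
      · rw [if_pos hn, if_pos (by omega), pderiv_monomial]
      · rw [if_neg hn, if_neg (by omega), map_zero]
  | add p q hp hq => simp only [map_add, hp, hq]

theorem Chain2_hc_mul {m : ℕ} {q : MvPolynomial (Fin 2) ℂ} (hq : q.IsHomogeneous m) (k : ℕ)
    (p : MvPolynomial (Fin 2) ℂ) :
    homogeneousComponent k (p * q) =
      (if m ≤ k then homogeneousComponent (k - m) p else 0) * q := by
  induction p using MvPolynomial.induction_on' with
  | monomial d c =>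
    rw [homogeneousComponent_of_mem (((isHomogeneous_monomial c rfl).mul hq) :
      (monomial d c * q).IsHomogeneous (d.degree + m)),
      homogeneousComponent_of_mem (isHomogeneous_monomial c rfl)]
    by_cases h1 : m ≤ k
    · rw [if_pos h1]
      by_cases h2 : k = d.degree + m
      · rw [if_pos h2, if_pos (by omega)]
      · rw [if_neg h2, if_neg (by omega), zero_mul]
    · rw [if_neg h1, if_neg (by omega), zero_mul]
  | add p q hp hq =>
    rw [add_mul, map_add, hp, hq, map_add, ← add_mul]
    congr 1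
    split_ifs <;> simp

theorem Chain2_euler {n : ℕ} {p : MvPolynomial (Fin 2) ℂ} (hp : p.IsHomogeneous n) :
    X 0 * pderiv 0 p + X 1 * pderiv 1 p = C (n : ℂ) * p := by
  have := hp.sum_X_mul_pderiv
  rw [Fin.sum_univ_two] at this
  rw [this, nsmul_eq_mul, map_natCast]

theorem Chain2_pow (i : Fin 2) (g : MvPolynomial (Fin 2) ℂ) (m : ℕ) :
    g * pderiv i (g ^ m) = C (m : ℂ) * (g ^ m * pderiv i g) := by
  rcases m with _ | m
  · simp
  · rw [pderiv_pow, map_natCast, Nat.add_sub_cancel]
    ring

/-- The relation in the degree `D - 1`. -/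
theorem Chain2_rel {N E : ℕ} {g ψ : MvPolynomial (Fin 2) ℂ} (hg : g.IsHomogeneous N)
    (hψ : ψ.IsHomogeneous E) (φ : Fin 2 → MvPolynomial (Fin 2) ℂ)
    (h : ψ = ∑ i, (pderiv i (φ i) - φ i * pderiv i g)) (e : ℕ) :
    pderiv 0 (homogeneousComponent (e + 1) (φ 0)) + pderiv 1 (homogeneousComponent (e + 1) (φ 1)) =
      ((if N - 1 ≤ e then homogeneousComponent (e - (N - 1)) (φ 0) else 0) * pderiv 0 g +
      (if N - 1 ≤ e then homogeneousComponent (e - (N - 1)) (φ 1) else 0) * pderiv 1 g) +
      if e = E then ψ else 0 := by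
  have h1 := congrArg (homogeneousComponent e) h
  rw [homogeneousComponent_of_mem hψ, Fin.sum_univ_two, map_add, map_sub, map_sub,
    Chain2_hc_pderiv, Chain2_hc_pderiv, Chain2_hc_mul hg.pderiv, Chain2_hc_mul hg.pderiv] at h1
  rw [h1]
  ring

/-- **The polynomial attached to a relation `ψ = ∑ (∂_i φ_i - φ_i ∂_i g)`** (`g`, `ψ` binary forms of
degree `N`, `E`).
PROOF.  Write `E + 1 = r + K N`, `r < N` (`r = (E + 1) % N`, `K = (E + 1) / N`), `D j = r + j N`,
`H j i = homogeneousComponent (D j) (φ i)`, `div H = ∂_0 H_0 + ∂_1 H_1`, `H(g) = H_0 ∂_0 g + H_1 ∂_1 g`.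
Taking the component of degree `D j - 1` of the relation gives (for `D j = 0` it is trivial)
  `div (H j) = [j ≥ 1] H (j - 1) (g) + [j = K] ψ`.                         (R)
Choose `L ≥ K` with `H j = 0` for `j > L` (`L = K + totalDegree (φ 0) + totalDegree (φ 1)`, as `D j ≥ j`); (R) for
`j = L + 1` gives `H L (g) = 0`.  Put `c j = ∏_{i < j} (D i + 1) / N`, so `N c (j + 1) = (D j + 1) c j` and
`c j ≠ 0`, `A j = X 0 * H j 1 - X 1 * H j 0` (degree `D j + 1`), `P = ∑_{j ≤ L} c j g ^ (L - j) A j`,
homogeneous of degree `T = L N + r + 1 = (L - K) N + E + 2`; `J = L - K`.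
For a homogeneous vector field `H = (α, β)` of degree `e` and `A = X 0 β - X 1 α`, Euler's relation gives
  `∂_1 A = X 0 div H - (e + 1) α`,   `∂_0 A = (e + 1) β - X 1 div H`,
  `A ∂_1 g = X 0 H(g) - N α g`,      `A ∂_0 g = N β g - X 1 H(g)`.
Since `N (L - j) - T = - (D j + 1)`,
`N g ∂_1 P - T P ∂_1 g = ∑_j c_j g^(L-j) (- (D j + 1) A_j ∂_1 g + N g ∂_1 A_j)
  = X 0 ∑_j c_j g^(L-j) (- (D j + 1) H_j(g) + N g div H_j)`
and by (R) the sum telescopes: `N c_j g^(L-j+1) H_(j-1)(g)` cancels with
`- (D_(j-1) + 1) c_(j-1) g^(L-(j-1)) H_(j-1)(g)`, the term with `H_L(g)` is `0`, and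
`N c_K g^(L-K+1) ψ` remains.  The same bracket appears in `N g ∂_0 P - T P ∂_0 g` with factor `- X 1`.
So `c = N c_K`. -/
theorem chain2 {N E : ℕ} (hN : 1 ≤ N) {g ψ : MvPolynomial (Fin 2) ℂ} (hg : g.IsHomogeneous N)
    (hψ : ψ.IsHomogeneous E) (φ : Fin 2 → MvPolynomial (Fin 2) ℂ)
    (h : ψ = ∑ i, (pderiv i (φ i) - φ i * pderiv i g)) :
    ∃ (J : ℕ) (c : ℂ) (P : MvPolynomial (Fin 2) ℂ), c ≠ 0 ∧ P.IsHomogeneous (J * N + E + 2) ∧
      C (N : ℂ) * (g * pderiv 1 P) - C ((J * N + E + 2 : ℕ) : ℂ) * (P * pderiv 1 g) =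
        C c * (X 0 * g ^ (J + 1) * ψ) ∧
      C (N : ℂ) * (g * pderiv 0 P) - C ((J * N + E + 2 : ℕ) : ℂ) * (P * pderiv 0 g) =
        - (C c * (X 1 * g ^ (J + 1) * ψ)) := by
  obtain ⟨r, hr⟩ : ∃ r, r = (E + 1) % N := ⟨_, rfl⟩
  obtain ⟨K, hK⟩ : ∃ K, K = (E + 1) / N := ⟨_, rfl⟩
  have hrN : r < N := by rw [hr]; exact Nat.mod_lt _ (by omega)
  have hE : E + 1 = r + K * N := by
    rw [hr, hK, mul_comm]
    exact (Nat.mod_add_div _ _).symm
  clear hr hK
  obtain ⟨J, hJ⟩ : ∃ J, J = (φ 0).totalDegree + (φ 1).totalDegree + 1 := ⟨_, rfl⟩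
  set D : ℕ → ℕ := fun j => r + j * N with hD
  set α : ℕ → MvPolynomial (Fin 2) ℂ := fun j => homogeneousComponent (D j) (φ 0) with hα
  set β : ℕ → MvPolynomial (Fin 2) ℂ := fun j => homogeneousComponent (D j) (φ 1) with hβ
  have hαh : ∀ j, (α j).IsHomogeneous (D j) := fun j => homogeneousComponent_isHomogeneous _ _
  have hβh : ∀ j, (β j).IsHomogeneous (D j) := fun j => homogeneousComponent_isHomogeneous _ _
  set dv : ℕ → MvPolynomial (Fin 2) ℂ := fun j => pderiv 0 (α j) + pderiv 1 (β j) with hdv
  set Hg : ℕ → MvPolynomial (Fin 2) ℂ := fun j => α j * pderiv 0 g + β j * pderiv 1 g with hHg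
  have R0 : dv 0 = if K = 0 then ψ else 0 := by
    rcases Nat.eq_zero_or_pos r with h0 | h0
    · have hK : K ≠ 0 := by
        rintro rfl
        omega
      rw [if_neg hK]
      show pderiv 0 (homogeneousComponent (r + 0 * N) (φ 0)) +
        pderiv 1 (homogeneousComponent (r + 0 * N) (φ 1)) = 0
      rw [h0, zero_mul, add_zero, homogeneousComponent_zero, homogeneousComponent_zero, pderiv_C,
        pderiv_C, add_zero]
    · have h1 := Chain2_rel hg hψ φ h (r - 1)
      rw [if_neg (by omega), if_neg (by omega), show r - 1 + 1 = D 0 by simp [hD]; omega] at h1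
      show pderiv 0 (homogeneousComponent (D 0) (φ 0)) +
        pderiv 1 (homogeneousComponent (D 0) (φ 1)) = _
      rw [h1]
      have h2 : (r - 1 = E) ↔ K = 0 := by
        constructor
        · intro h3
          have h4 : K * N = 0 := by omega
          rcases Nat.mul_eq_zero.1 h4 with h5 | h5
          · exact h5
          · omega
        · rintro rfl
          omega
      simp only [h2]
      ring
  have R1 : ∀ j, dv (j + 1) = Hg j + if j + 1 = K then ψ else 0 := by
    intro j
    have hDj : D (j + 1) = D j + N := by simp only [hD]; ring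
    have h1 := Chain2_rel hg hψ φ h (D j + N - 1)
    rw [if_pos (by omega), if_pos (by omega), show D j + N - 1 + 1 = D (j + 1) by omega,
      show D j + N - 1 - (N - 1) = D j by omega] at h1
    show pderiv 0 (homogeneousComponent (D (j + 1)) (φ 0)) +
        pderiv 1 (homogeneousComponent (D (j + 1)) (φ 1)) = _
    rw [h1]
    have h2 : (D j + N - 1 = E) ↔ j + 1 = K := by
      have h3 : D j + N = r + (j + 1) * N := by simp only [hD]; ring
      constructor
      · intro h4
        have h5 : (j + 1) * N = K * N := by omega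
        exact Nat.eq_of_mul_eq_mul_right (by omega) h5
      · intro h4
        rw [h4] at h3
        omega
    simp only [h2]
    rfl
  have hHL : ∀ j, J ≤ j → Hg j = 0 := by
    intro j hj
    have h1 : j ≤ D j := by
      simp only [hD]
      have := Nat.le_mul_of_pos_right j (show 0 < N by omega)
      omega
    have h2 : α j = 0 := homogeneousComponent_eq_zero _ _ (by omega)
    have h3 : β j = 0 := homogeneousComponent_eq_zero _ _ (by omega)
    simp only [hHg, h2, h3, zero_mul, add_zero]
  have hN0 : (N : ℂ) ≠ 0 := by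
    have : N ≠ 0 := by omega
    exact_mod_cast this
  set c : ℕ → ℂ := fun j => ∏ i ∈ Finset.range j, ((D i : ℂ) + 1) / N with hc
  have hc0 : ∀ j, c j ≠ 0 := by
    intro j
    apply Finset.prod_ne_zero_iff.2
    intro i _
    have : (D i : ℂ) + 1 ≠ 0 := by exact_mod_cast Nat.succ_ne_zero (D i)
    exact div_ne_zero this hN0
  have hcs : ∀ j, (N : ℂ) * c (j + 1) = ((D j : ℂ) + 1) * c j := by
    intro j
    simp only [hc, Finset.prod_range_succ]
    field_simp
  set A : ℕ → MvPolynomial (Fin 2) ℂ := fun j => X 0 * β j - X 1 * α j with hA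
  set L := K + J with hL
  set B : ℕ → MvPolynomial (Fin 2) ℂ := fun j =>
    C (c j) * (g ^ (L - j) * (- (C ((D j : ℂ) + 1) * Hg j) + C (N : ℂ) * (g * dv j))) with hB
  have tel : ∀ M, M ≤ L → ∑ j ∈ Finset.range (M + 1), B j =
      - (C (((D M : ℂ) + 1) * c M) * (g ^ (L - M) * Hg M)) +
        if K ≤ M then C ((N : ℂ) * c K) * (g ^ (J + 1) * ψ) else 0 := by
    intro M
    induction M with
    | zero =>
      intro _
      rw [zero_add, Finset.sum_range_one]
      simp only [hB, R0]
      by_cases hK : K = 0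
      · rw [if_pos hK, if_pos (by omega)]
        have : L = J := by omega
        rw [this, hK, Nat.sub_zero, map_mul, map_mul, pow_succ]
        ring
      · rw [if_neg hK, if_neg (by omega), map_mul]
        ring
    | succ M ih =>
      intro hM
      rw [Finset.sum_range_succ, ih (by omega)]
      simp only [hB, R1]
      have h1 : C (N : ℂ) * C (c (M + 1)) = (C (((D M : ℂ) + 1) * c M) : MvPolynomial (Fin 2) ℂ) := by
        rw [← map_mul, hcs]
      have h2 : g ^ (L - M) = g ^ (L - (M + 1)) * g := by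
        rw [← pow_succ]
        congr 1
        omega
      rw [← h1, h2]
      by_cases hK : M + 1 = K
      · have h3 : g ^ (J + 1) = g ^ (L - (M + 1)) * g := by
          rw [← pow_succ]
          congr 1
          omega
        rw [if_pos hK, if_neg (by omega), if_pos (by omega), h3, ← hK]
        simp only [map_mul]
        ring
      · by_cases hK' : K ≤ M
        · rw [if_neg hK, if_pos hK', if_pos (by omega)]
          simp only [map_mul]
          ring
        · rw [if_neg hK, if_neg hK', if_neg (by omega)]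
          simp only [map_mul]
          ring
  have hT : J * N + E + 2 = L * N + r + 1 := by
    rw [hL, Nat.add_mul]
    omega
  have tot : ∑ j ∈ Finset.range (L + 1), B j = C ((N : ℂ) * c K) * (g ^ (J + 1) * ψ) := by
    rw [tel L le_rfl, hHL L (by omega), if_pos (by omega), mul_zero, mul_zero, neg_zero, zero_add]
  refine ⟨J, (N : ℂ) * c K, ∑ j ∈ Finset.range (L + 1), C (c j) * (g ^ (L - j) * A j),
    mul_ne_zero hN0 (hc0 K), ?_, ?_, ?_⟩
  · apply IsHomogeneous.sum
    intro j hj
    have hj' : j ≤ L := by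
      have := Finset.mem_range.1 hj
      omega
    have h1 : (A j).IsHomogeneous (1 + D j) :=
      ((isHomogeneous_X ℂ (0 : Fin 2)).mul (hβh j)).sub ((isHomogeneous_X ℂ (1 : Fin 2)).mul (hαh j))
    have h2 := (isHomogeneous_C (Fin 2) (c j)).mul ((hg.pow (L - j)).mul h1)
    convert h2 using 1
    obtain ⟨t, ht⟩ : ∃ t, L = j + t := ⟨L - j, by omega⟩
    rw [hT, ht, Nat.add_sub_cancel_left]
    simp only [hD]
    ring
  · have key : ∀ j ∈ Finset.range (L + 1), C (N : ℂ) * (g * pderiv 1 (C (c j) * (g ^ (L - j) * A j))) -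
        C ((J * N + E + 2 : ℕ) : ℂ) * (C (c j) * (g ^ (L - j) * A j) * pderiv 1 g) = X 0 * B j := by
      intro j hj
      have hj' : j ≤ L := by
        have := Finset.mem_range.1 hj
        omega
      have e1 : pderiv 1 (A j) = X 0 * dv j - C ((D j : ℂ) + 1) * α j := by
        have h1 := Chain2_euler (hαh j)
        simp only [hA, hdv, map_sub, pderiv_mul, pderiv_X_self,
          pderiv_X_of_ne (show (0 : Fin 2) ≠ 1 by decide), map_add, map_one]
        linear_combination (-1 : MvPolynomial (Fin 2) ℂ) * h1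
      have e2 : A j * pderiv 1 g = X 0 * Hg j - C (N : ℂ) * (α j * g) := by
        have h1 := Chain2_euler hg
        simp only [hA, hHg]
        linear_combination (-(α j)) * h1
      have e3 := Chain2_pow 1 g (L - j)
      have e4 : C (N : ℂ) * C ((L - j : ℕ) : ℂ) - C ((J * N + E + 2 : ℕ) : ℂ) =
          - (C ((D j : ℂ) + 1) : MvPolynomial (Fin 2) ℂ) := by
        rw [← map_mul, ← map_sub, ← map_neg]
        congr 1
        rw [hT]
        obtain ⟨t, ht⟩ : ∃ t, L = j + t := ⟨L - j, by omega⟩
        rw [ht, Nat.add_sub_cancel_left]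
        simp only [hD]
        push_cast
        ring
      rw [pderiv_C_mul, pderiv_mul]
      simp only [hB]
      linear_combination (C (N : ℂ) * C (c j) * A j) * e3 +
        (C (c j) * g ^ (L - j) * A j * pderiv 1 g) * e4 +
        (-C ((D j : ℂ) + 1) * C (c j) * g ^ (L - j)) * e2 +
        (C (N : ℂ) * C (c j) * g * g ^ (L - j)) * e1
    rw [map_sum, Finset.mul_sum, Finset.mul_sum, Finset.sum_mul, Finset.mul_sum,
      ← Finset.sum_sub_distrib, Finset.sum_congr rfl key, ← Finset.mul_sum, tot]
    ring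
  · have key : ∀ j ∈ Finset.range (L + 1), C (N : ℂ) * (g * pderiv 0 (C (c j) * (g ^ (L - j) * A j))) -
        C ((J * N + E + 2 : ℕ) : ℂ) * (C (c j) * (g ^ (L - j) * A j) * pderiv 0 g) =
          - X 1 * B j := by
      intro j hj
      have hj' : j ≤ L := by
        have := Finset.mem_range.1 hj
        omega
      have e1 : pderiv 0 (A j) = C ((D j : ℂ) + 1) * β j - X 1 * dv j := by
        have h1 := Chain2_euler (hβh j)
        simp only [hA, hdv, map_sub, pderiv_mul, pderiv_X_self,
          pderiv_X_of_ne (show (1 : Fin 2) ≠ 0 by decide), map_add, map_one]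
        linear_combination h1
      have e2 : A j * pderiv 0 g = C (N : ℂ) * (β j * g) - X 1 * Hg j := by
        have h1 := Chain2_euler hg
        simp only [hA, hHg]
        linear_combination (β j) * h1
      have e3 := Chain2_pow 0 g (L - j)
      have e4 : C (N : ℂ) * C ((L - j : ℕ) : ℂ) - C ((J * N + E + 2 : ℕ) : ℂ) =
          - (C ((D j : ℂ) + 1) : MvPolynomial (Fin 2) ℂ) := by
        rw [← map_mul, ← map_sub, ← map_neg]
        congr 1
        rw [hT]
        obtain ⟨t, ht⟩ : ∃ t, L = j + t := ⟨L - j, by omega⟩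
        rw [ht, Nat.add_sub_cancel_left]
        simp only [hD]
        push_cast
        ring
      rw [pderiv_C_mul, pderiv_mul]
      simp only [hB]
      linear_combination (C (N : ℂ) * C (c j) * A j) * e3 +
        (C (c j) * g ^ (L - j) * A j * pderiv 0 g) * e4 +
        (-C ((D j : ℂ) + 1) * C (c j) * g ^ (L - j)) * e2 +
        (C (N : ℂ) * C (c j) * g * g ^ (L - j)) * e1
    rw [map_sum, Finset.mul_sum, Finset.mul_sum, Finset.sum_mul, Finset.mul_sum,
      ← Finset.sum_sub_distrib, Finset.sum_congr rfl key, ← Finset.mul_sum, tot]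
    ring

end Pool.Agent.helper92.LI
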