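import Mathlib
import Pool.Agent.helper92.LI.Defs

/-!
# Project LI, module DvdPrimes: divisibility from the multiplicities of the prime factors

Proved by helper59.

Independent of the other modules.
-/

set_option autoImplicit false

namespace Pool.Agent.helper92.LI

open MvPolynomial

/-- In a factorial ring divisibility can be tested on powers of primes. -/
private theorem DvdPrimes_dvd {R : Type*} [CommRing R] [IsDomain R] [UniqueFactorizationMonoid R]
    (Q : R) : Q ≠ 0 → ∀ P : R, (∀ p : R, Prime p → ∀ n : ℕ, p ^ n ∣ Q → p ^ n ∣ P) → Q ∣ P := by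
  induction Q using UniqueFactorizationMonoid.induction_on_prime with
  | h₁ => exact fun h => absurd rfl h
  | h₂ x hx => exact fun _ P _ => hx.dvd
  | h₃ Q p hQ hp ih =>
    intro _ P hP
    obtain ⟨P', rfl⟩ : p ∣ P := by
      have := hP p hp 1 (by rw [pow_one]; exact Dvd.intro _ rfl)
      rwa [pow_one] at this
    refine mul_dvd_mul_left p (ih hQ P' ?_)
    intro q hq n hn
    by_cases hqp : q ∣ p
    · have hass : Associated q p := hq.associated_of_dvd hp hqp
      obtain ⟨u, rfl⟩ := hass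
      have h1 : q ^ (n + 1) ∣ q * u * Q := by
        rw [pow_succ', mul_assoc]
        exact mul_dvd_mul_left q (hn.trans (Dvd.intro_left _ rfl))
      have h2 := hP q hq (n + 1) h1
      rw [pow_succ', mul_assoc] at h2
      have h3 := (mul_dvd_mul_iff_left hq.ne_zero).1 h2
      exact (Units.dvd_mul_left).1 h3
    · exact hq.pow_dvd_of_dvd_mul_left n hqp (hP q hq n (hn.trans (Dvd.intro_left _ rfl)))

private theorem DvdPrimes_split {R : Type*} [CommRing R] [IsDomain R] {p : R} (hp : Prime p)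
    (a b : R) : ∀ n : ℕ, p ^ n ∣ a * b → ∃ i j, i + j = n ∧ p ^ i ∣ a ∧ p ^ j ∣ b := by
  intro n
  induction n with
  | zero =>
    intro _
    exact ⟨0, 0, rfl, by rw [pow_zero]; exact one_dvd _, by rw [pow_zero]; exact one_dvd _⟩
  | succ n ih =>
    intro h
    obtain ⟨i, j, hij, ⟨a', ha'⟩, ⟨b', hb'⟩⟩ := ih ((pow_dvd_pow p (Nat.le_succ n)).trans h)
    have h1 : p ^ n * p ∣ p ^ n * (a' * b') := by
      rw [← pow_succ]
      have h2 : a * b = p ^ n * (a' * b') := by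
        rw [ha', hb', ← hij]
        ring
      rwa [h2] at h
    have h2 : p ∣ a' * b' := (mul_dvd_mul_iff_left (pow_ne_zero _ hp.ne_zero)).1 h1
    rcases hp.dvd_or_dvd h2 with h3 | h3
    · refine ⟨i + 1, j, by omega, ?_, ⟨b', hb'⟩⟩
      rw [ha', pow_succ]
      exact mul_dvd_mul_left _ h3
    · refine ⟨i, j + 1, by omega, ⟨a', ha'⟩, ?_⟩
      rw [hb', pow_succ]
      exact mul_dvd_mul_left _ h3

/-- The exponent of a prime in a product. -/
private theorem DvdPrimes_mul {R : Type*} [CommRing R] [IsDomain R] {p a b : R} (hp : Prime p)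
    {s t n : ℕ} (ha : ¬ p ^ (s + 1) ∣ a) (hb : ¬ p ^ (t + 1) ∣ b) (h : p ^ n ∣ a * b) :
    n ≤ s + t := by
  obtain ⟨i, j, hij, h1, h2⟩ := DvdPrimes_split hp a b n h
  by_contra hn
  have h3 : s + 1 ≤ i ∨ t + 1 ≤ j := by omega
  rcases h3 with h3 | h3
  · exact ha ((pow_dvd_pow p h3).trans h1)
  · exact hb ((pow_dvd_pow p h3).trans h2)

private theorem DvdPrimes_pow {R : Type*} [CommRing R] [IsDomain R] {p g : R} (hp : Prime p)
    {μ : ℕ} (hg : ¬ p ^ (μ + 1) ∣ g) : ∀ J : ℕ, ¬ p ^ (J * μ + 1) ∣ g ^ J := by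
  intro J
  induction J with
  | zero =>
    intro h
    rw [zero_mul, zero_add, pow_one, pow_zero] at h
    exact hp.not_isUnit (isUnit_of_dvd_one h)
  | succ J ih =>
    intro h
    rw [pow_succ g J] at h
    have h1 := DvdPrimes_mul hp ih hg h
    rw [Nat.succ_mul] at h1
    omega

private theorem DvdPrimes_max {R : Type*} [CommRing R] [IsDomain R] [UniqueFactorizationMonoid R]
    {p b : R} (hp : Prime p) (hb : b ≠ 0) : ∃ μ, p ^ μ ∣ b ∧ ¬ p ^ (μ + 1) ∣ b := by
  classical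
  have h : ∃ n : ℕ, ¬ p ^ (n + 1) ∣ b := FiniteMultiplicity.of_not_isUnit hp.not_isUnit hb
  refine ⟨Nat.find h, ?_, Nat.find_spec h⟩
  rcases Nat.eq_zero_or_pos (Nat.find h) with h0 | h0
  · rw [h0, pow_zero]
    exact one_dvd _
  · have h1 := Nat.find_min h (Nat.sub_lt h0 one_pos)
    rw [not_not, show Nat.find h - 1 + 1 = Nat.find h by omega] at h1
    exact h1

/-- A prime factor of a nonzero linear form is associated to it. -/
private theorem DvdPrimes_assoc {p l : MvPolynomial (Fin 2) ℂ} (hp : Prime p)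
    (hl : l.IsHomogeneous 1) (hl0 : l ≠ 0) (h : p ∣ l) : Associated p l := by
  obtain ⟨c, hc⟩ := h
  have hc0 : c ≠ 0 := by
    rintro rfl
    exact hl0 (by rw [hc, mul_zero])
  have h1 := hl.totalDegree hl0
  rw [hc, totalDegree_mul_of_isDomain hp.ne_zero hc0] at h1
  have hun : ∀ f : MvPolynomial (Fin 2) ℂ, f ≠ 0 → f.totalDegree = 0 → IsUnit f := by
    intro f hf h2
    rw [totalDegree_eq_zero_iff_eq_C] at h2
    rw [h2] at hf ⊢
    refine IsUnit.map C (isUnit_iff_ne_zero.2 fun h3 => hf ?_)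
    rw [h3, C_0]
  have h2 : p.totalDegree ≠ 0 := fun h3 => hp.not_isUnit (hun p hp.ne_zero h3)
  have h3 := hun c hc0 (by omega)
  obtain ⟨u, rfl⟩ := h3
  exact ⟨u, hc.symm⟩

private theorem DvdPrimes_sq {p l : MvPolynomial (Fin 2) ℂ} (hp : Prime p)
    (hl : l.IsHomogeneous 1) (hl0 : l ≠ 0) : ¬ p ^ (1 + 1) ∣ l := by
  intro h
  have h1 : p ∣ l := (dvd_pow_self p (by norm_num)).trans h
  obtain ⟨u, rfl⟩ := DvdPrimes_assoc hp hl hl0 h1
  rw [pow_succ, pow_one] at h
  exact hp.not_isUnit (isUnit_of_dvd_unit ((mul_dvd_mul_iff_left hp.ne_zero).1 h) u.isUnit)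

/-- The exponent of a prime in the product of three different linear forms is at most one. -/
private theorem DvdPrimes_three {p : MvPolynomial (Fin 2) ℂ} (hp : Prime p)
    {l : Fin 3 → MvPolynomial (Fin 2) ℂ} (hl1 : ∀ i, (l i).IsHomogeneous 1) (hl0 : ∀ i, l i ≠ 0)
    (hli : ∀ i j, i ≠ j → ¬ l i ∣ l j) : ¬ p ^ (1 + 1) ∣ l 0 * l 1 * l 2 := by
  classical
  intro h
  have h1 : ∀ i j, i ≠ j → p ∣ l i → ¬ p ∣ l j := by
    intro i j hij hi hj
    exact hli i j hij ((DvdPrimes_assoc hp (hl1 i) (hl0 i) hi).symm.dvd.trans hj)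
  have h2 : ∀ i, ¬ p ^ ((if p ∣ l i then 1 else 0) + 1) ∣ l i := by
    intro i
    by_cases hi : p ∣ l i
    · rw [if_pos hi]
      exact DvdPrimes_sq hp (hl1 i) (hl0 i)
    · rw [if_neg hi, zero_add, pow_one]
      exact hi
  have h3 : (if p ∣ l 0 then 1 else 0) + (if p ∣ l 1 then 1 else 0) +
      (if p ∣ l 2 then 1 else 0) ≤ 1 := by
    have k1 := h1 0 1 (by decide)
    have k2 := h1 0 2 (by decide)
    have k3 := h1 1 2 (by decide)
    by_cases c0 : p ∣ l 0
    · rw [if_pos c0, if_neg (k1 c0), if_neg (k2 c0)]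
    · rw [if_neg c0]
      by_cases c1 : p ∣ l 1
      · rw [if_pos c1, if_neg (k3 c1)]
      · rw [if_neg c1]
        split_ifs <;> norm_num
  have h4 : ¬ p ^ ((if p ∣ l 0 then 1 else 0) + (if p ∣ l 1 then 1 else 0) + 1) ∣
      l 0 * l 1 := by
    intro h5
    have := DvdPrimes_mul hp (h2 0) (h2 1) h5
    omega
  have h5 := DvdPrimes_mul hp h4 (h2 2) h
  omega

/-- **Divisibility from multiplicities.**  `P ≠ 0` is divisible by `Q = g ^ J * X 0 ^ A * X 1 ^ B * (l 0 * l 1 * l 2)`.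
PROOF.  It suffices that for every prime `p` the multiplicity of `p` in `Q` is at most the one in `P`
(`UniqueFactorizationMonoid`; for instance induction on the prime factorisation of `Q`, or
`UniqueFactorizationMonoid.dvd_iff_normalizedFactors_le_normalizedFactors`, or the `emultiplicity` version).
If `p ∣ Q` then `p ∣ g`: `p` divides `g`, or `X 0` with `A ≥ 1` (then `X 0 ∣ g` by `hA`), or `X 1` with
`B ≥ 1`, or some `l i ∣ g`.  Let `μ ≥ 1` be its multiplicity in `g`, `e` the one in `X 0 ^ A * X 1 ^ B`.  The forms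
`l i` are irreducible (degree one, nonzero), so `p` divides at most one of them and with multiplicity
one (`hli`).  So its multiplicity in `Q` is at most `J μ + e + 1`, and `hP` applies. -/
theorem dvd_of_primes {J A B : ℕ} {g P : MvPolynomial (Fin 2) ℂ} (hg0 : g ≠ 0) (hP0 : P ≠ 0)
    {l : Fin 3 → MvPolynomial (Fin 2) ℂ} (hl1 : ∀ i, (l i).IsHomogeneous 1) (hl : ∀ i, l i ∣ g)
    (hli : ∀ i j, i ≠ j → ¬ l i ∣ l j) (hA : 1 ≤ A → X 0 ∣ g) (hB : 1 ≤ B → X 1 ∣ g)
    (hP : ∀ (p : MvPolynomial (Fin 2) ℂ) (μ e : ℕ), Prime p → 1 ≤ μ → p ^ μ ∣ g →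
      ¬ p ^ (μ + 1) ∣ g → p ^ e ∣ X 0 ^ A * X 1 ^ B → ¬ p ^ (e + 1) ∣ X 0 ^ A * X 1 ^ B →
      p ^ (J * μ + e + 1) ∣ P) :
    g ^ J * (X 0 ^ A * X 1 ^ B) * (l 0 * l 1 * l 2) ∣ P := by
  have hl0 : ∀ i, l i ≠ 0 := by
    intro i h
    have h1 := hl i
    rw [h, zero_dvd_iff] at h1
    exact hg0 h1
  have hM0 : (X 0 ^ A * X 1 ^ B : MvPolynomial (Fin 2) ℂ) ≠ 0 :=
    mul_ne_zero (pow_ne_zero _ (X_ne_zero _)) (pow_ne_zero _ (X_ne_zero _))
  refine DvdPrimes_dvd _ (mul_ne_zero (mul_ne_zero (pow_ne_zero _ hg0) hM0)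
    (mul_ne_zero (mul_ne_zero (hl0 0) (hl0 1)) (hl0 2))) P ?_
  intro p hp n hn
  rcases Nat.eq_zero_or_pos n with h0 | h0
  · rw [h0, pow_zero]
    exact one_dvd _
  have hpQ : p ∣ g ^ J * (X 0 ^ A * X 1 ^ B) * (l 0 * l 1 * l 2) :=
    (dvd_pow_self p (by omega)).trans hn
  have hpg : p ∣ g := by
    rcases hp.dvd_or_dvd hpQ with h1 | h1
    · rcases hp.dvd_or_dvd h1 with h2 | h2
      · exact hp.dvd_of_dvd_pow h2
      · rcases hp.dvd_or_dvd h2 with h3 | h3
        · have hA1 : 1 ≤ A := by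
            by_contra hA0
            rw [Nat.lt_one_iff.1 (not_le.1 hA0), pow_zero] at h3
            exact hp.not_isUnit (isUnit_of_dvd_one h3)
          exact (hp.dvd_of_dvd_pow h3).trans (hA hA1)
        · have hB1 : 1 ≤ B := by
            by_contra hB0
            rw [Nat.lt_one_iff.1 (not_le.1 hB0), pow_zero] at h3
            exact hp.not_isUnit (isUnit_of_dvd_one h3)
          exact (hp.dvd_of_dvd_pow h3).trans (hB hB1)
    · rcases hp.dvd_or_dvd h1 with h2 | h2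
      · rcases hp.dvd_or_dvd h2 with h3 | h3
        · exact h3.trans (hl 0)
        · exact h3.trans (hl 1)
      · exact h2.trans (hl 2)
  obtain ⟨μ, hμ, hμ'⟩ := DvdPrimes_max hp hg0
  obtain ⟨e, he, he'⟩ := DvdPrimes_max hp hM0
  have hμ1 : 1 ≤ μ := by
    by_contra hc
    rw [Nat.lt_one_iff.1 (not_le.1 hc), zero_add, pow_one] at hμ'
    exact hμ' hpg
  have h1 := hP p μ e hp hμ1 hμ hμ' he he'
  have h2 : ¬ p ^ (J * μ + e + 1) ∣ g ^ J * (X 0 ^ A * X 1 ^ B) := by
    intro h3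
    have := DvdPrimes_mul hp (DvdPrimes_pow hp hμ' J) he' h3
    omega
  have h3 := DvdPrimes_mul hp h2 (DvdPrimes_three hp hl1 hl0 hli) hn
  exact (pow_dvd_pow p h3).trans h1

end Pool.Agent.helper92.LI
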