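import Mathlib
import Pool.Agent.helper92.LI.Defs

/-!
# Project LI, module OrderP: orders of `P` along the prime factors of `g`

Independent of the other modules.
-/

set_option autoImplicit false

namespace Pool.Agent.helper92.LI

open MvPolynomial

/-- The degree of a nonzero partial derivative is smaller. -/
private theorem OrderP_deg {i : Fin 2} {p : MvPolynomial (Fin 2) ℂ} (h : pderiv i p ≠ 0) :
    (pderiv i p).totalDegree < p.totalDegree := by
  have hne : (pderiv i p).support.Nonempty := support_nonempty.2 h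
  obtain ⟨m, hm, hmd⟩ := Finset.exists_mem_eq_sup _ hne (fun m => m.sum fun _ e => e)
  have h1 : (pderiv i p).totalDegree = m.sum fun _ e => e := hmd
  have h2 : coeff m (pderiv i p) ≠ 0 := mem_support_iff.1 hm
  rw [coeff_pderiv] at h2
  have h3 : coeff (m + Finsupp.single i 1) p ≠ 0 := left_ne_zero_of_mul h2
  have h4 := le_totalDegree (mem_support_iff.2 h3)
  have h5 : ((m + Finsupp.single i 1).sum fun _ e => e) = (m.sum fun _ e => e) + 1 := by
    rw [Finsupp.sum_add_index' (fun _ => rfl) (fun _ _ _ => rfl), Finsupp.sum_single_index rfl]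
  rw [h5] at h4
  omega

/-- A prime polynomial does not divide one of its partial derivatives.
PROOF.  If both derivatives are `0` then `p` is a constant (characteristic `0`; look at a monomial of
positive degree, `coeff_pderiv`), hence `0` or a unit.  If `∂_i p ≠ 0` and `p ∣ ∂_i p`, then
`totalDegree p ≤ totalDegree (∂_i p) < totalDegree p` (`totalDegree_mul_of_isDomain`; the last inequality:
`totalDegree_pderiv_lt` if it exists, otherwise from `coeff_pderiv`, `p` is not constant). -/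
theorem exists_not_dvd_pderiv {p : MvPolynomial (Fin 2) ℂ} (hp : Prime p) :
    ∃ i : Fin 2, ¬ p ∣ pderiv i p := by
  by_contra hcon
  push Not at hcon
  have h0 : ∀ i, pderiv i p = 0 := by
    intro i
    by_contra hi
    obtain ⟨q, hq⟩ := hcon i
    have hq0 : q ≠ 0 := by
      rintro rfl
      rw [mul_zero] at hq
      exact hi hq
    have h1 := OrderP_deg hi
    rw [hq, totalDegree_mul_of_isDomain hp.ne_zero hq0] at h1
    omega
  have h1 : p = C (coeff 0 p) := by
    ext m
    rw [coeff_C]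
    split_ifs with hm
    · rw [← hm]
    · have hm' : m ≠ 0 := fun h => hm h.symm
      obtain ⟨i, hi⟩ : ∃ i, m i ≠ 0 := by
        by_contra hall
        push Not at hall
        exact hm' (Finsupp.ext hall)
      have h2 : m - Finsupp.single i 1 + Finsupp.single i 1 = m := by
        apply tsub_add_cancel_of_le
        rw [Finsupp.single_le_iff]
        omega
      have h3 := congrArg (coeff (m - Finsupp.single i 1)) (h0 i)
      rw [coeff_pderiv, h2, coeff_zero] at h3
      rcases mul_eq_zero.1 h3 with h4 | h4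
      · exact h4
      · exfalso
        norm_cast at h4
  by_cases hc : coeff 0 p = 0
  · rw [hc, C_0] at h1
    exact hp.ne_zero h1
  · apply hp.not_isUnit
    rw [h1]
    exact (isUnit_iff_ne_zero.2 hc).map C

private theorem OrderP_pow (i : Fin 2) (p q : MvPolynomial (Fin 2) ℂ) (n : ℕ) :
    p * pderiv i (p ^ n * q) =
      C (n : ℂ) * (p ^ n * pderiv i p * q) + p ^ (n + 1) * pderiv i q := by
  rw [pderiv_mul, pderiv_pow]
  cases n with
  | zero => simp
  | succ n =>
    rw [Nat.add_sub_cancel]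
    simp only [map_natCast]
    ring

/-- **Order of `P` along a prime factor `p` of `g`.**
PROOF.  `P ≠ 0` (otherwise the relation says `c X g^(J+1) ψ = 0`).  Let `m` be the exact multiplicity of
`p` in `P`: `P = p^m P'`, `¬ p ∣ P'` (`exists_eq_pow_mul_and_not_dvd` with `FiniteMultiplicity`), and
`g = p^μ g'`, `¬ p ∣ g'`.  Suppose `m ≤ J μ + e`.  Take `i` with `¬ p ∣ ∂_i p`; the relation for `i` has the
left-hand side `p^(μ + m - 1) ((N m - T μ) ∂_i p g' P' + p (N g' ∂_i P' - T P' ∂_i g'))`, `T = J N + E + 2`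
(multiply by `p` if `μ + m - 1` is inconvenient: `p * LHS = p^(μ+m) (...)`), and its right-hand side is
divisible by `p^((J + 1) μ + e)`, so by `p^(μ + m)`.  Cancel `p^(μ+m-1)`: `p ∣ (N m - T μ) ∂_i p g' P'`, hence
`N m = T μ` (a nonzero constant is a unit).  But `N m ≤ N (J μ + e) < N J μ + (E + 2) μ = T μ`,
a contradiction.  So `J μ + e + 1 ≤ m`. -/
theorem pow_dvd_P {N E J : ℕ} (hN : 1 ≤ N) {c : ℂ} (hc : c ≠ 0)
    {g ψ P p : MvPolynomial (Fin 2) ℂ} (hg0 : g ≠ 0) (hψ0 : ψ ≠ 0)
    (h1 : C (N : ℂ) * (g * pderiv 1 P) - C ((J * N + E + 2 : ℕ) : ℂ) * (P * pderiv 1 g) =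
        C c * (X 0 * g ^ (J + 1) * ψ))
    (h0 : C (N : ℂ) * (g * pderiv 0 P) - C ((J * N + E + 2 : ℕ) : ℂ) * (P * pderiv 0 g) =
        - (C c * (X 1 * g ^ (J + 1) * ψ)))
    (hp : Prime p) {μ e : ℕ} (hμ1 : 1 ≤ μ) (hμ : p ^ μ ∣ g) (hμ' : ¬ p ^ (μ + 1) ∣ g)
    (he : p ^ e ∣ ψ) (heN : e * N < (E + 2) * μ) : p ^ (J * μ + e + 1) ∣ P := by
  have hP : P ≠ 0 := by
    rintro rfl
    rw [map_zero, mul_zero, mul_zero, zero_mul, mul_zero, sub_zero] at h1
    have h2 : C c * (X 0 * g ^ (J + 1) * ψ) ≠ 0 := by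
      refine mul_ne_zero ?_ (mul_ne_zero (mul_ne_zero (X_ne_zero _) (pow_ne_zero _ hg0)) hψ0)
      rw [Ne, C_eq_zero]
      exact hc
    exact h2 h1.symm
  have hfin : FiniteMultiplicity p P := FiniteMultiplicity.of_not_isUnit hp.not_isUnit hP
  obtain ⟨P', hP', hPn⟩ := hfin.exists_eq_pow_mul_and_not_dvd
  set m := multiplicity p P with hm
  by_cases hcase : J * μ + e + 1 ≤ m
  · exact (pow_dvd_pow p hcase).trans ⟨P', hP'⟩
  exfalso
  have hmle : m ≤ J * μ + e := by omega
  obtain ⟨g', hg'⟩ := hμ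
  have hgn : ¬ p ∣ g' := by
    rintro ⟨g'', rfl⟩
    apply hμ'
    exact ⟨g'', by rw [hg', pow_succ]; ring⟩
  obtain ⟨ψ', hψ'⟩ := he
  obtain ⟨i, hi⟩ := exists_not_dvd_pderiv hp
  -- the relation for `i`
  obtain ⟨R, hR⟩ : ∃ R, C (N : ℂ) * (g * pderiv i P) -
      C ((J * N + E + 2 : ℕ) : ℂ) * (P * pderiv i g) = p ^ (μ + m) * R := by
    obtain ⟨t, ht⟩ : ∃ t, (J + 1) * μ + e = μ + m + t := by
      refine ⟨(J * μ + e) - m, ?_⟩
      have : (J + 1) * μ + e = μ + (J * μ + e) := by ring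
      omega
    have hd : p ^ (μ + m) * (p ^ t * g' ^ (J + 1) * ψ') = g ^ (J + 1) * ψ := by
      have e1 : p ^ (μ + m) * (p ^ t * g' ^ (J + 1) * ψ') =
          p ^ ((J + 1) * μ + e) * (g' ^ (J + 1) * ψ') := by
        rw [ht, pow_add p (μ + m) t]
        ring
      rw [e1, hψ']
      conv_rhs => rw [hg']
      rw [mul_pow, ← pow_mul, pow_add, mul_comm μ (J + 1)]
      ring
    have hi2 : i = 0 ∨ i = 1 := by
      fin_cases i
      · exact Or.inl rfl
      · exact Or.inr rfl
    rcases hi2 with rfl | rfl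
    · refine ⟨- (C c * (X 1 * (p ^ t * g' ^ (J + 1) * ψ'))), ?_⟩
      rw [h0]
      linear_combination (- (C c * X 1)) * (- hd)
    · refine ⟨C c * (X 0 * (p ^ t * g' ^ (J + 1) * ψ')), ?_⟩
      rw [h1]
      linear_combination (C c * X 0) * (- hd)
  have hP1 := OrderP_pow i p P' m
  have hg1 := OrderP_pow i p g' μ
  rw [← hP'] at hP1
  rw [← hg'] at hg1
  set T : ℕ := J * N + E + 2 with hT
  have hkey : p ^ (μ + m) * (C (((N * m : ℕ) : ℂ) - ((T * μ : ℕ) : ℂ)) * (pderiv i p * g' * P') +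
      p * (C (N : ℂ) * (g' * pderiv i P') - C (T : ℂ) * (P' * pderiv i g') - R)) = 0 := by
    have e1 : p * (C (N : ℂ) * (g * pderiv i P) - C (T : ℂ) * (P * pderiv i g)) =
        p * (p ^ (μ + m) * R) := by rw [hR]
    have e2 : p * (C (N : ℂ) * (g * pderiv i P) - C (T : ℂ) * (P * pderiv i g)) =
        C (N : ℂ) * (g * (p * pderiv i P)) - C (T : ℂ) * (P * (p * pderiv i g)) := by ring
    rw [e2, hP1, hg1] at e1
    have e3 : g = p ^ μ * g' := hg'
    have e4 : P = p ^ m * P' := hP'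
    rw [C_sub, Nat.cast_mul, Nat.cast_mul, C_mul, C_mul]
    have e5 : C (N : ℂ) * (p ^ μ * g' * (C (m : ℂ) * (p ^ m * pderiv i p * P') +
        p ^ (m + 1) * pderiv i P')) - C (T : ℂ) * (p ^ m * P' * (C (μ : ℂ) *
        (p ^ μ * pderiv i p * g') + p ^ (μ + 1) * pderiv i g')) = p * (p ^ (μ + m) * R) := by
      rw [← e3, ← e4]
      exact e1
    rw [pow_add]
    rw [pow_add] at e5
    linear_combination e5
  have hz : C (((N * m : ℕ) : ℂ) - ((T * μ : ℕ) : ℂ)) * (pderiv i p * g' * P') +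
      p * (C (N : ℂ) * (g' * pderiv i P') - C (T : ℂ) * (P' * pderiv i g') - R) = 0 :=
    (mul_eq_zero.1 hkey).resolve_left (pow_ne_zero _ hp.ne_zero)
  have hdvd : p ∣ C (((N * m : ℕ) : ℂ) - ((T * μ : ℕ) : ℂ)) * (pderiv i p * g' * P') :=
    ⟨-(C (N : ℂ) * (g' * pderiv i P') - C (T : ℂ) * (P' * pderiv i g') - R), by
      linear_combination hz⟩
  rcases hp.dvd_or_dvd hdvd with h2 | h2
  · by_cases hzero : (((N * m : ℕ) : ℂ) - ((T * μ : ℕ) : ℂ)) = 0
    · have h3 : N * m = T * μ := by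
        have := sub_eq_zero.1 hzero
        exact_mod_cast this
      have h4 : N * m ≤ N * (J * μ + e) := Nat.mul_le_mul_left _ hmle
      have h5 : N * (J * μ + e) = J * N * μ + e * N := by ring
      have h6 : T * μ = J * N * μ + (E + 2) * μ := by rw [hT]; ring
      omega
    · apply hp.not_isUnit
      exact isUnit_of_dvd_unit h2 ((isUnit_iff_ne_zero.2 hzero).map C)
  · rcases hp.dvd_or_dvd h2 with h3 | h3
    · rcases hp.dvd_or_dvd h3 with h4 | h4
      · exact hi h4
      · exact hgn h4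
    · exact hPn h3

end Pool.Agent.helper92.LI
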