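import Mathlib
import Pool.Agent.helper92.LI.Defs
import Pool.Agent.helper92.LI.Chain2
import Pool.Agent.helper92.LI.OrderP
import Pool.Agent.helper92.LI.DvdPrimes
import Pool.Agent.helper92.LC.Chain

/-!
# Project LI, module TwoVar: Stokes functionals of binary forms with three different factors

`Chain2`, `OrderP`, `DvdPrimes` are used through their stubs.

proofs: helper51
-/

set_option autoImplicit false

namespace Pool.Agent.helper92.LI

open MvPolynomial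
open Pool.Agent.helper67.IF Pool.Agent.helper92.LC

/-- `ψ` is not of the form `∑_i (∂_i φ_i - φ_i ∂_i g)` if and only if some Stokes functional does not vanish
at `ψ`.
PROOF.  As `LC.hasStokes_of_notMem` in `Pool.Agent.helper92.LC.Chain` (the case `ψ = 1`). -/
theorem exists_stokes_of_notMem {n : ℕ} (g ψ : MvPolynomial (Fin n) ℂ)
    (h : ∀ φ : Fin n → MvPolynomial (Fin n) ℂ,
      ψ ≠ ∑ i, (pderiv i (φ i) - φ i * pderiv i g)) :
    ∃ G : MvPolynomial (Fin n) ℂ →ₗ[ℂ] ℂ, Stokes g G ∧ G ψ ≠ 0 := by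
  classical
  let T : (Fin n → MvPolynomial (Fin n) ℂ) →ₗ[ℂ] MvPolynomial (Fin n) ℂ :=
    { toFun := fun φ => ∑ i, (pderiv i (φ i) - φ i * pderiv i g)
      map_add' := by
        intro φ ψ
        rw [← Finset.sum_add_distrib]
        refine Finset.sum_congr rfl fun i _ => ?_
        rw [Pi.add_apply, map_add]
        ring
      map_smul' := by
        intro c φ
        rw [RingHom.id_apply, Finset.smul_sum]
        refine Finset.sum_congr rfl fun i _ => ?_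
        rw [Pi.smul_apply, (pderiv i).map_smul, smul_sub, smul_mul_assoc] }
  have hT : ∀ φ, T φ = ∑ i, (pderiv i (φ i) - φ i * pderiv i g) := fun _ => rfl
  have h1 : ψ ∉ LinearMap.range T := by
    rintro ⟨φ, hφ⟩
    exact h φ (hφ.symm.trans (hT φ))
  obtain ⟨G, hG1, hG⟩ := Submodule.exists_le_ker_of_notMem h1
  refine ⟨G, fun i φ => ?_, hG1⟩
  have h2 : T (Pi.single i φ) = pderiv i φ - φ * pderiv i g := by
    rw [hT, Finset.sum_eq_single i]
    · rw [Pi.single_eq_same]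
    · intro j _ hj
      rw [Pi.single_eq_of_ne hj, map_zero, zero_mul, sub_zero]
    · intro hi
      exact absurd (Finset.mem_univ i) hi
  have h3 : G (T (Pi.single i φ)) = 0 := hG (LinearMap.mem_range_self T _)
  rw [h2, map_sub, sub_eq_zero] at h3
  exact h3

/-- the exact multiplicity of a prime `p` associated to `x` in `x ^ A * y ^ B` -/
lemma TwoVar_mult {x y p : MvPolynomial (Fin 2) ℂ} (hx : Prime x)
    (hxy : ¬ x ∣ y) (hp : Prime p) (hpx : p ∣ x) {A B e : ℕ} (he : p ^ e ∣ x ^ A * y ^ B) :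
    e ≤ A := by
  have has : Associated p x := hp.associated_of_dvd hx hpx
  have h1 : ¬ p ∣ y ^ B := fun hc => hxy (has.symm.dvd.trans (hp.dvd_of_dvd_pow hc))
  have h2 : p ^ e ∣ x ^ A := hp.pow_dvd_of_dvd_mul_right e h1 he
  have h3 : x ^ e ∣ x ^ A := ((has.symm.pow_pow (n := e)).dvd).trans h2
  exact (pow_dvd_pow_iff hx.ne_zero hx.not_isUnit).1 h3

/-- the estimate of the multiplicities -/
lemma TwoVar_est {x g p : MvPolynomial (Fin 2) ℂ} {A B N N1 μ e : ℕ} (hpx : p ∣ x)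
    (h1 : x ^ N1 ∣ g) (hA : A = 0 ∨ A * N < (A + B + 2) * N1) (hμ' : ¬ p ^ (μ + 1) ∣ g)
    (he0 : 1 ≤ e) (heA : e ≤ A) : e * N < (A + B + 2) * μ := by
  have hA' : A * N < (A + B + 2) * N1 := by
    rcases hA with h | h
    · omega
    · exact h
  have hN1 : N1 ≤ μ := by
    by_contra hc
    push Not at hc
    exact hμ' (((pow_dvd_pow p (by omega : μ + 1 ≤ N1)).trans (pow_dvd_pow_of_dvd hpx N1)).trans
      h1)
  calc e * N ≤ A * N := Nat.mul_le_mul_right N heA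
    _ < (A + B + 2) * N1 := hA'
    _ ≤ (A + B + 2) * μ := Nat.mul_le_mul_left _ hN1

/-- the condition on the exponent gives the divisibility -/
lemma TwoVar_dvd {x g : MvPolynomial (Fin 2) ℂ} {A B N N1 : ℕ}
    (h1 : x ^ N1 ∣ g) (hA : A = 0 ∨ A * N < (A + B + 2) * N1) (h : 1 ≤ A) : x ∣ g := by
  have hA' : A * N < (A + B + 2) * N1 := by
    rcases hA with h | h
    · omega
    · exact h
  have hN1 : N1 ≠ 0 := by
    rintro rfl
    rw [mul_zero] at hA'
    omega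
  exact (dvd_pow_self x hN1).trans h1

/-- **Binary forms with three different linear factors.**
PROOF.  By `exists_stokes_of_notMem` suppose `ψ = C κ * X 0 ^ A * X 1 ^ B = ∑ (∂_i φ_i - φ_i ∂_i g)`, and take
`J, c, P` from `chain2` (`E = A + B`); `P ≠ 0` (otherwise `c X 0 g^(J+1) ψ = 0`).  For a prime `p ∣ g` of
multiplicity `μ` in `g` and `e` in `X 0 ^ A * X 1 ^ B`: `e N < (E + 2) μ`.  Indeed if `e ≥ 1` then `p` is associated to
`X 0` and `e = A`, `N1 ≤ μ`, so `A N < (A + B + 2) N1 ≤ (E + 2) μ` by `hA`, or to `X 1`, similarly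
(`X 0`, `X 1` are non-associated primes); if `e = 0` it is clear.  So `pow_dvd_P` and `dvd_of_primes` give
`g^J (X 0 ^ A * X 1 ^ B) l_0 l_1 l_2 ∣ P` (`A ≥ 1` implies `N1 ≥ 1` by `hA`, so `X 0 ∣ g`).  The total degrees are
`J N + A + B + 3` and `J N + A + B + 2`, and `P ≠ 0`: a contradiction. -/
theorem two_var {N A B N1 N2 : ℕ} (hN : 1 ≤ N) {g : MvPolynomial (Fin 2) ℂ}
    (hg : g.IsHomogeneous N) (hg0 : g ≠ 0)
    {l : Fin 3 → MvPolynomial (Fin 2) ℂ} (hl1 : ∀ i, (l i).IsHomogeneous 1) (hl : ∀ i, l i ∣ g)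
    (hli : ∀ i j, i ≠ j → ¬ l i ∣ l j) (h1 : X 0 ^ N1 ∣ g) (h2 : X 1 ^ N2 ∣ g)
    (hA : A = 0 ∨ A * N < (A + B + 2) * N1) (hB : B = 0 ∨ B * N < (A + B + 2) * N2)
    {κ : ℂ} (hκ : κ ≠ 0) :
    ∃ G : MvPolynomial (Fin 2) ℂ →ₗ[ℂ] ℂ, Stokes g G ∧ G (C κ * X 0 ^ A * X 1 ^ B) ≠ 0 := by
  apply exists_stokes_of_notMem
  intro φ hφ
  have hX0 : Prime (X 0 : MvPolynomial (Fin 2) ℂ) := X_prime
  have hX1 : Prime (X 1 : MvPolynomial (Fin 2) ℂ) := X_prime
  have h01 : ¬ (X 0 : MvPolynomial (Fin 2) ℂ) ∣ X 1 := by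
    rw [X_dvd_X]
    decide
  have h10 : ¬ (X 1 : MvPolynomial (Fin 2) ℂ) ∣ X 0 := by
    rw [X_dvd_X]
    decide
  have hCκ : (C κ : MvPolynomial (Fin 2) ℂ) ≠ 0 := by
    rw [Ne, MvPolynomial.C_eq_zero]
    exact hκ
  set ψ : MvPolynomial (Fin 2) ℂ := C κ * X 0 ^ A * X 1 ^ B with hψd
  have hψ0 : ψ ≠ 0 := mul_ne_zero (mul_ne_zero hCκ (pow_ne_zero _ hX0.ne_zero))
    (pow_ne_zero _ hX1.ne_zero)
  have hψh : ψ.IsHomogeneous (A + B) :=
    (isHomogeneous_C_mul_X_pow κ 0 A).mul (isHomogeneous_X_pow 1 B)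
  obtain ⟨J, c, P, hc, hPh, hr1, hr0⟩ := chain2 hN hg hψh φ hφ
  have hP0 : P ≠ 0 := by
    rintro rfl
    rw [map_zero, mul_zero, mul_zero, zero_mul, mul_zero, sub_zero] at hr1
    have h3 : C c * (X 0 * g ^ (J + 1) * ψ) ≠ 0 := by
      refine mul_ne_zero ?_ (mul_ne_zero (mul_ne_zero hX0.ne_zero (pow_ne_zero _ hg0)) hψ0)
      rw [Ne, MvPolynomial.C_eq_zero]
      exact hc
    exact h3 hr1.symm
  have hQP : g ^ J * (X 0 ^ A * X 1 ^ B) * (l 0 * l 1 * l 2) ∣ P := by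
    refine dvd_of_primes hg0 hP0 hl1 hl hli (TwoVar_dvd h1 hA) ?_ ?_
    · exact TwoVar_dvd (B := A) h2 (by rwa [Nat.add_comm B A])
    · intro p μ e hp hμ1 hμ hμ' he he'
      refine pow_dvd_P hN hc hg0 hψ0 hr1 hr0 hp hμ1 hμ hμ' ?_ ?_
      · rw [hψd, mul_assoc]
        exact he.trans (dvd_mul_left _ _)
      · rcases Nat.eq_zero_or_pos e with h3 | h3
        · rw [h3, zero_mul]
          exact Nat.mul_pos (by omega) hμ1
        · have hpd : p ∣ X 0 ^ A * X 1 ^ B := (dvd_pow_self p (by omega)).trans he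
          rcases hp.dvd_or_dvd hpd with h4 | h4
          · have h5 := hp.dvd_of_dvd_pow h4
            exact TwoVar_est h5 h1 hA hμ' h3 (TwoVar_mult hX0 h01 hp h5 he)
          · have h5 := hp.dvd_of_dvd_pow h4
            have h6 := TwoVar_est (B := A) h5 h2 (by rwa [Nat.add_comm B A]) hμ' h3
              (TwoVar_mult hX1 h10 hp h5 (by rwa [mul_comm] at he))
            rwa [Nat.add_comm B A] at h6
  have hQh : (g ^ J * (X 0 ^ A * X 1 ^ B) * (l 0 * l 1 * l 2)).IsHomogeneous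
      (N * J + (A + B) + (1 + 1 + 1)) :=
    (((hg.pow J).mul ((isHomogeneous_X_pow 0 A).mul (isHomogeneous_X_pow 1 B)))).mul
      (((hl1 0).mul (hl1 1)).mul (hl1 2))
  obtain ⟨R, hR⟩ := hQP
  have hR0 : R ≠ 0 := by
    rintro rfl
    rw [mul_zero] at hR
    exact hP0 hR
  have hQ0 : g ^ J * (X 0 ^ A * X 1 ^ B) * (l 0 * l 1 * l 2) ≠ 0 := by
    intro h3
    rw [h3, zero_mul] at hR
    exact hP0 hR
  have hd := hPh.totalDegree hP0
  rw [hR, totalDegree_mul_of_isDomain hQ0 hR0, hQh.totalDegree hQ0, Nat.mul_comm N J] at hd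
  omega

end Pool.Agent.helper92.LI
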