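import Mathlib
import Pool.Agent.helper92.LI.PointRoot2
import Pool.Agent.helper92.LI.TwoVar
import Pool.Agent.helper92.LI.Inv

/-!
# Project LI, module Final: assembly (helper92)
-/

set_option autoImplicit false

namespace Pool.Agent.helper92.LI

open MvPolynomial Filter Topology Asymptotics
open Pool.Agent.helper67.ND Pool.Agent.helper67.IF Pool.Agent.helper92.LC Pool.Agent.helper92.LW

lemma Final_coeff_zero_aeval {n : ℕ} {Ψ : Fin n → MvPolynomial (Fin n) ℂ} (hΨ : ∀ i, Ord 1 (Ψ i))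
    (g : MvPolynomial (Fin n) ℂ) : coeff 0 (aeval Ψ g) = coeff 0 g := by
  have h0 : ∀ i, coeff 0 (Ψ i) = 0 := by
    intro i
    by_contra hne
    have h3 := hΨ i 0 (mem_support_iff.2 hne)
    simp at h3
  have key : ∀ p : MvPolynomial (Fin n) ℂ, constantCoeff (aeval Ψ p) = constantCoeff p := by
    intro p
    induction p using MvPolynomial.induction_on with
    | C c => simp
    | add p r hp hr => simp only [map_add, hp, hr]
    | mul_X p i hp =>
      rw [map_mul, map_mul, hp, map_mul, aeval_X]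
      have : constantCoeff (Ψ i) = 0 := h0 i
      rw [this, constantCoeff_X]
  exact key g

lemma Final_ord_one {n : ℕ} {g : MvPolynomial (Fin n) ℂ} (h : coeff 0 g = 0) : Ord 1 g := by
  intro u hu
  rw [Finsupp.weight_apply, Finsupp.sum]
  by_contra hlt
  have h1 : ∑ i ∈ u.support, u i • 1 = 0 := by omega
  have h2 : u = 0 := by
    ext i
    by_contra hi
    have h3 := (Finset.sum_eq_zero_iff.1 h1) i (Finsupp.mem_support_iff.2 hi)
    simp only [smul_eq_mul, mul_one] at h3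
    exact hi h3
  rw [h2] at hu
  exact (mem_support_iff.1 hu) h

/-- Three pairwise independent linear factors: the degree is at least `1`. -/
lemma Final_deg {M : ℕ} {g0 l : MvPolynomial (Fin 2) ℂ} (h0 : g0.IsHomogeneous M) (h00 : g0 ≠ 0)
    (hl1 : l.IsHomogeneous 1) (hl : l ∣ g0) : 1 ≤ M := by
  obtain ⟨r, hr⟩ := hl
  have hl0 : l ≠ 0 := by rintro rfl; rw [zero_mul] at hr; exact h00 hr
  have hr0 : r ≠ 0 := by rintro rfl; rw [mul_zero] at hr; exact h00 hr
  have h1 := h0.totalDegree h00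
  have h2 := hl1.totalDegree hl0
  rw [hr, totalDegree_mul_of_isDomain hl0 hr0, h2] at h1
  omega

/-- **The root attached to an infinitely near point of the tangent cone.** -/
theorem near_root {w : Fin 3 → ℕ} (hw : ∀ i, 1 ≤ w i) {N k : ℕ} (hk : 1 ≤ k)
    {f0 h : MvPolynomial (Fin 3) ℂ}
    (hf0 : f0.IsWeightedHomogeneous w N) (hh : h.IsWeightedHomogeneous w (N + k))
    {f : (Fin 3 → ℂ) → ℂ} (hf : AnalyticAt ℂ f 0)
    {L : Matrix (Fin 3) (Fin 3) ℂ} (hL : L.det ≠ 0)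
    (hO : ∀ z : Fin 3 → ℂ,
      (fun t : ℂ => f (L.mulVec fun i => t ^ w i * z i) -
        (t ^ N * eval z f0 + t ^ (N + k) * eval z h)) =O[𝓝 0] (fun t : ℂ => ‖t‖ ^ (N + k + 1)))
    {q : Fin 2 → ℂ} (hq : eval (pt q) h ≠ 0)
    {Ψ : Fin 2 → MvPolynomial (Fin 2) ℂ} {A B : ℕ} (hΨ : Near Ψ A B)
    {M : ℕ} {g0 : MvPolynomial (Fin 2) ℂ} (h0 : g0.IsHomogeneous M) (h00 : g0 ≠ 0)
    (hg : Ord (M + 1) (aeval Ψ (tr q (dh f0)) - g0))
    {l : Fin 3 → MvPolynomial (Fin 2) ℂ} (hl1 : ∀ i, (l i).IsHomogeneous 1) (hl : ∀ i, l i ∣ g0)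
    (hli : ∀ i j, i ≠ j → ¬ l i ∣ l j)
    (hex : ∀ j : ℕ, 1 ≤ j → (∑ i, w i) * M ≠ N * (A + B + 2) + j * ((N + k) * M))
    {b : Polynomial ℂ} (hb : IsBernstein f b) :
    b.eval (-(((∑ i, w i) * M + k * (A + B + 2) : ℕ) : ℂ) / ((N + k) * M : ℕ)) = 0 := by
  have hM : 1 ≤ M := Final_deg h0 h00 (hl1 0) (hl 0)
  obtain ⟨hO1, u, hu, hu0⟩ := near_jac hΨ
  set F : MvPolynomial (Fin 2) ℂ := tr q (dh f0) with hF
  have hF0 : F ≠ 0 := by
    intro h1
    rw [h1, map_zero, zero_sub] at hg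
    have h2 : Ord (M + 1) g0 := by
      intro v hv
      refine hg v ?_
      rw [mem_support_iff, coeff_neg, neg_ne_zero]
      exact mem_support_iff.1 hv
    obtain ⟨v, hv⟩ := support_nonempty.2 h00
    have h3 := h2 v hv
    have h4 := h0 (mem_support_iff.1 hv)
    rw [show (fun _ : Fin 2 => (1 : ℕ)) = 1 from rfl] at h3
    omega
  have hc0 : coeff 0 (aeval Ψ F) = 0 := by
    have e1 : coeff 0 (aeval Ψ F) = coeff 0 (aeval Ψ F - g0) + coeff 0 g0 := by
      rw [coeff_sub]; ring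
    have e2 : coeff 0 (aeval Ψ F - g0) = 0 := by
      by_contra hne
      have h3 := hg 0 (mem_support_iff.2 hne)
      simp at h3
    have e3 : coeff 0 g0 = 0 := by
      by_contra hne
      have h4 := h0 hne
      rw [map_zero] at h4
      omega
    rw [e1, e2, e3, add_zero]
  have hF1 : Ord 1 F := Final_ord_one (by rw [← Final_coeff_zero_aeval hO1 F, hc0])
  obtain ⟨N1, N2, hN1, hN2, hA, hB⟩ := near_ineq hF0 hF1 hΨ h0 h00 hg
  obtain ⟨G, hG, hG1⟩ := two_var hM h0 h00 hl1 hl hli hN1 hN2 hA hB hu0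
  have hψ : (C (coeff 0 u) * X 0 ^ A * X 1 ^ B :
      MvPolynomial (Fin 2) ℂ).IsWeightedHomogeneous (fun _ => 1) (A + B) := by
    have h1 : (C (coeff 0 u) * X 0 ^ A * X 1 ^ B : MvPolynomial (Fin 2) ℂ).IsHomogeneous
        (0 + A + B) :=
      ((isHomogeneous_C _ _).mul (isHomogeneous_X_pow _ _)).mul (isHomogeneous_X_pow _ _)
    rw [zero_add] at h1
    exact h1
  have hψY : Ge (fun _ => 1) (A + B + 1) ((jacM Ψ).det - C (coeff 0 u) * X 0 ^ A * X 1 ^ B) := by
    have e1 : (jacM Ψ).det - C (coeff 0 u) * X 0 ^ A * X 1 ^ B =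
        (X 0 ^ A * X 1 ^ B) * (u - C (coeff 0 u)) := by
      rw [hu]; ring
    rw [e1]
    have h1 : Ge (fun _ => 1) (A + B) (X 0 ^ A * X 1 ^ B : MvPolynomial (Fin 2) ℂ) :=
      Ge.of_homog (((isHomogeneous_X_pow _ _).mul (isHomogeneous_X_pow _ _)))
    refine h1.mul ?_
    refine Final_ord_one ?_
    rw [coeff_sub, coeff_C, if_pos rfl, sub_self]
  have hs : ∑ i : Fin 2, (1 : ℕ) = 2 := by simp
  have hfin := point_root2 (m := 2) (by norm_num) hw hk hf0 hh hf hL hO hO1 (fun _ => le_rfl) hM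
    h0 hg hψ hψY hG hG1 hq (by
      intro j hj
      have := hex j hj
      simp only [Finset.sum_const, Finset.card_univ, Fintype.card_fin, smul_eq_mul, mul_one]
      rwa [add_comm 2 (A + B)]) hb
  simp only [Finset.sum_const, Finset.card_univ, Fintype.card_fin, smul_eq_mul, mul_one] at hfin
  rwa [add_comm 2 (A + B)] at hfin

end Pool.Agent.helper92.LI
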