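import Mathlib
import Pool.Agent.helper92.LI.Defs
import Pool.Agent.helper92.LC.Iso

/-!
# Project LI, module Node: the Stokes functional of a nondegenerate binary quadratic form (helper92)
-/

set_option autoImplicit false

namespace Pool.Agent.helper92.LI

open MvPolynomial
open Pool.Agent.helper67.IF Pool.Agent.helper92.LC

/-- A linear form in two variables. -/
lemma Node_linear {l : MvPolynomial (Fin 2) ℂ} (hl : l.IsHomogeneous 1) :
    l = C (coeff (Finsupp.single 0 1) l) * X 0 + C (coeff (Finsupp.single 1 1) l) * X 1 := by
  ext u
  rw [coeff_add, coeff_C_mul, coeff_C_mul, coeff_X, coeff_X]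
  by_cases hu : coeff u l = 0
  · split_ifs with h1 h2 h2
    · exact absurd (Finsupp.single_left_injective one_ne_zero (h1.trans h2.symm)) (by decide)
    · rw [h1]; simp
    · rw [h2]; simp
    · simp [hu]
  · have h1 : u 0 + u 1 = 1 := by
      have h2 := hl hu
      rw [Finsupp.weight_apply, Finsupp.sum_fintype _ _ (by simp), Fin.sum_univ_two] at h2
      simpa using h2
    have h2 : u = Finsupp.single 0 1 ∨ u = Finsupp.single 1 1 := by
      rcases Nat.eq_zero_or_pos (u 0) with h3 | h3
      · right
        ext i
        fin_cases i
        · simpa using h3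
        · simp; omega
      · left
        ext i
        fin_cases i
        · simp; omega
        · simp; omega
    rcases h2 with rfl | rfl
    · simp
      intro h
      exact absurd (Finsupp.single_left_injective one_ne_zero h) (by decide)
    · simp
      intro h
      exact absurd (Finsupp.single_left_injective one_ne_zero h) (by decide)

/-- **Nondegenerate binary quadratic forms.** -/
theorem hasStokes_node {l : Fin 2 → MvPolynomial (Fin 2) ℂ} (hl : ∀ i, (l i).IsHomogeneous 1)
    (h01 : ¬ l 0 ∣ l 1) (h0 : l 0 ≠ 0) : HasStokes (l 0 * l 1) := by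
  obtain ⟨a, b, ha⟩ : ∃ a b : ℂ, l 0 = C a * X 0 + C b * X 1 := ⟨_, _, Node_linear (hl 0)⟩
  obtain ⟨c, d, hc⟩ : ∃ c d : ℂ, l 1 = C c * X 0 + C d * X 1 := ⟨_, _, Node_linear (hl 1)⟩
  have hD : a * d - b * c ≠ 0 := by
    intro hD
    apply h01
    by_cases ha0 : a = 0
    · have hb0 : b ≠ 0 := by
        rintro rfl
        rw [ha0] at ha
        exact h0 (by rw [ha]; simp)
      have hc0 : c = 0 := by
        rw [ha0, zero_mul, zero_sub, neg_eq_zero] at hD
        exact (mul_eq_zero.1 hD).resolve_left hb0
      refine ⟨C (d / b), ?_⟩
      rw [ha, hc, ha0, hc0, C_0, zero_mul, zero_add, zero_add, mul_right_comm, ← C_mul]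
      congr 2
      field_simp
    · refine ⟨C (c / a), ?_⟩
      have h1 : d = b * c / a := by
        field_simp
        linear_combination hD
      rw [ha, hc, add_mul, mul_right_comm, mul_right_comm (C b), ← C_mul, ← C_mul]
      congr 3
      · field_simp
      · rw [h1]; field_simp
  refine hasStokes_iso (a := fun _ => 1) (N := 2) (fun _ => le_rfl) ?_ ?_
  · exact (hl 0).mul (hl 1)
  · intro z
    have e0 : eval z (pderiv 0 (l 0 * l 1)) = a * (c * z 0 + d * z 1) + c * (a * z 0 + b * z 1) := by
      rw [ha, hc, Derivation.leibniz]
      simp [pderiv_X]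
      ring
    have e1 : eval z (pderiv 1 (l 0 * l 1)) = b * (c * z 0 + d * z 1) + d * (a * z 0 + b * z 1) := by
      rw [ha, hc, Derivation.leibniz]
      simp [pderiv_X]
      ring
    constructor
    · intro h
      have h1 := h 0
      have h2 := h 1
      rw [e0] at h1
      rw [e1] at h2
      have h3 : (a * d - b * c) * (a * z 0 + b * z 1) = 0 := by linear_combination a * h2 - b * h1
      have h4 : (a * d - b * c) * (c * z 0 + d * z 1) = 0 := by linear_combination d * h1 - c * h2
      have h5 := (mul_eq_zero.1 h3).resolve_left hD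
      have h6 := (mul_eq_zero.1 h4).resolve_left hD
      have h7 : (a * d - b * c) * z 0 = 0 := by linear_combination d * h5 - b * h6
      have h8 : (a * d - b * c) * z 1 = 0 := by linear_combination a * h6 - c * h5
      funext i
      fin_cases i
      · exact (mul_eq_zero.1 h7).resolve_left hD
      · exact (mul_eq_zero.1 h8).resolve_left hD
    · rintro rfl i
      fin_cases i
      · exact e0.trans (by simp)
      · exact e1.trans (by simp)

end Pool.Agent.helper92.LI
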