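import Mathlib
import Pool.Agent.helper92.LI.Final
import Pool.Agent.helper92.LI.Node

/-!
# Project LI, module Final2: the final form, with the nodes (helper92)
-/

set_option autoImplicit false

namespace Pool.Agent.helper92.LI

open MvPolynomial Filter Topology Asymptotics
open Pool.Agent.helper67.ND Pool.Agent.helper67.IF Pool.Agent.helper92.LC Pool.Agent.helper92.LW

/-- The blow-up `E` of some point infinitely near to the origin of `ℂ ^ 2` has `N_E = M`, `ν_E = ν`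
(for the function `F` and the form `du dv`) and either the total transform of `F = 0` has at least
three tangents at this point (so `E` meets at least three other components), or `E` is the blow-up
of the origin and `F` has a node there. -/
def RuptureAux (F : MvPolynomial (Fin 2) ℂ) (M ν : ℕ) : Prop :=
  ∃ (Ψ : Fin 2 → MvPolynomial (Fin 2) ℂ) (A B : ℕ) (g : MvPolynomial (Fin 2) ℂ),
    Near Ψ A B ∧ ν = A + B + 2 ∧ g.IsHomogeneous M ∧ g ≠ 0 ∧ Ord (M + 1) (aeval Ψ F - g) ∧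
    ((∃ l : Fin 3 → MvPolynomial (Fin 2) ℂ, (∀ i, (l i).IsHomogeneous 1) ∧ (∀ i, l i ∣ g) ∧
        ∀ i j, i ≠ j → ¬ l i ∣ l j) ∨
      (A + B = 0 ∧ ∃ l : Fin 2 → MvPolynomial (Fin 2) ℂ, (∀ i, (l i).IsHomogeneous 1) ∧
        g = l 0 * l 1 ∧ ¬ l 0 ∣ l 1))

/-- **The root attached to a rupture component over a point of the tangent cone.** -/
theorem rupture_root {w : Fin 3 → ℕ} (hw : ∀ i, 1 ≤ w i) {N k : ℕ} (hN : 1 ≤ N) (hk : 1 ≤ k)
    {f0 h : MvPolynomial (Fin 3) ℂ}
    (hf0 : f0.IsWeightedHomogeneous w N) (hh : h.IsWeightedHomogeneous w (N + k))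
    {f : (Fin 3 → ℂ) → ℂ} (hf : AnalyticAt ℂ f 0)
    {L : Matrix (Fin 3) (Fin 3) ℂ} (hL : L.det ≠ 0)
    (hO : ∀ z : Fin 3 → ℂ,
      (fun t : ℂ => f (L.mulVec fun i => t ^ w i * z i) -
        (t ^ N * eval z f0 + t ^ (N + k) * eval z h)) =O[𝓝 0] (fun t : ℂ => ‖t‖ ^ (N + k + 1)))
    {q : Fin 2 → ℂ} (hq : eval (pt q) h ≠ 0)
    {M ν : ℕ} (hE : RuptureAux (tr q (dh f0)) M ν)
    (hex : N + k < ∑ i, w i → ∀ j : ℕ, 1 ≤ j →
      (∑ i, w i) * M ≠ N * ν + j * ((N + k) * M))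
    {b : Polynomial ℂ} (hb : IsBernstein f b) :
    b.eval (-(((∑ i, w i) * M + k * ν : ℕ) : ℂ) / ((N + k) * M : ℕ)) = 0 := by
  obtain ⟨Ψ, A, B, g0, hΨ, rfl, h0, h00, hg, hcase⟩ := hE
  have hex' : ∀ j : ℕ, 1 ≤ j → (∑ i, w i) * M ≠ N * (A + B + 2) + j * ((N + k) * M) := by
    intro j hj
    by_cases hle : N + k < ∑ i, w i
    · exact hex hle j hj
    · push Not at hle
      have h1 : (∑ i, w i) * M ≤ (N + k) * M := Nat.mul_le_mul_right _ hle
      have h2 : 1 * ((N + k) * M) ≤ j * ((N + k) * M) := Nat.mul_le_mul_right _ hj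
      have h3 : 1 * (A + B + 2) ≤ N * (A + B + 2) := Nat.mul_le_mul_right _ hN
      omega
  rcases hcase with ⟨l, hl1, hl, hli⟩ | ⟨hAB, l, hl1, hgl, hli⟩
  · exact near_root hw hk hf0 hh hf hL hO hq hΨ h0 h00 hg hl1 hl hli hex' hb
  · obtain ⟨rfl, rfl⟩ : A = 0 ∧ B = 0 := by omega
    have hl0 : l 0 ≠ 0 := by
      intro h1
      rw [hgl, h1, zero_mul] at h00
      exact h00 rfl
    have hM : 1 ≤ M := Final_deg h0 h00 (hl1 0) (by rw [hgl]; exact dvd_mul_right _ _)
    obtain ⟨hO1, u, hu, hu0⟩ := near_jac hΨ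
    obtain ⟨G, hG, hG1⟩ : HasStokes g0 := by
      rw [hgl]
      exact hasStokes_node hl1 hli hl0
    have hψ : (C (coeff 0 u) : MvPolynomial (Fin 2) ℂ).IsWeightedHomogeneous (fun _ => 1) 0 :=
      isHomogeneous_C _ _
    have hψY : Ge (fun _ => 1) (0 + 1) ((jacM Ψ).det - C (coeff 0 u)) := by
      rw [hu, pow_zero, pow_zero, one_mul, one_mul]
      refine Final_ord_one ?_
      rw [coeff_sub, coeff_C, if_pos rfl, sub_self]
    have hGψ : G (C (coeff 0 u)) ≠ 0 := by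
      have h1 : (C (coeff 0 u) : MvPolynomial (Fin 2) ℂ) = coeff 0 u • 1 := by
        rw [smul_eq_C_mul, mul_one]
      rw [h1, map_smul, smul_eq_mul]
      exact mul_ne_zero hu0 hG1
    have hfin := point_root2 (m := 2) (by norm_num) hw hk hf0 hh hf hL hO hO1 (fun _ => le_rfl) hM
      h0 hg hψ hψY hG hGψ hq (by
        intro j hj
        have := hex' j hj
        simp only [Finset.sum_const, Finset.card_univ, Fintype.card_fin, smul_eq_mul, mul_one]
        simpa using this) hb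
    simpa using hfin

end Pool.Agent.helper92.LI
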